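import Mathlib

/-!
Every uncountable abelian group has an uncountable quotient which is a `p`-group for some prime.
-/

set_option autoImplicit false
open Set

namespace Pool.Agent.MP_47df8f_gt

section Algebra

variable {A : Type*} [AddCommGroup A]

/-- A maximal subgroup with prescribed trace on `F₁`. -/
theorem exists_max_subgroup {p : ℕ} (hp : p.Prime) (F₀ F₁ : AddSubgroup A)
    (hpF : ∀ x ∈ F₁, p • x ∈ F₀) :
    ∃ E : AddSubgroup A, (∀ x ∈ E, x ∈ F₁ → x ∈ F₀) ∧ ∀ x : A, ∃ n : ℕ, (p ^ n) • x ∈ E := by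
  let s : Set (AddSubgroup A) := {E | F₀ ≤ E ∧ ∀ x ∈ E, x ∈ F₁ → x ∈ F₀}
  obtain ⟨E, -, hE⟩ := zorn_le_nonempty₀ s (by
    intro c hcs hc y hy
    refine ⟨sSup c, ⟨?_, ?_⟩, fun z hz => le_sSup hz⟩
    · exact (hcs hy).1.trans (le_sSup hy)
    · intro x hx hx1
      rw [AddSubgroup.mem_sSup_of_directedOn ⟨y, hy⟩ hc.directedOn] at hx
      obtain ⟨z, hz, hxz⟩ := hx
      exact (hcs hz).2 x hxz hx1) F₀ ⟨le_rfl, fun x hx _ => hx⟩
  have hEs : E ∈ s := hE.1
  have key : ∀ x : A, x ∉ E → ∃ n : ℤ, n • x ∉ E ∧ (p : ℤ) • (n • x) ∈ E := by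
    intro x hx
    have hlt : ¬ (E ⊔ AddSubgroup.zmultiples x ≤ E) := by
      intro hle
      exact hx (hle (AddSubgroup.mem_sup_right (AddSubgroup.mem_zmultiples x)))
    have hns : E ⊔ AddSubgroup.zmultiples x ∉ s := fun hs => hlt (hE.2 hs le_sup_left)
    have : ∃ f ∈ E ⊔ AddSubgroup.zmultiples x, f ∈ F₁ ∧ f ∉ F₀ := by
      by_contra hcon
      push Not at hcon
      exact hns ⟨hEs.1.trans le_sup_left, hcon⟩
    obtain ⟨f, hf, hf1, hf0⟩ := this
    obtain ⟨e, he, y, hy, rfl⟩ := AddSubgroup.mem_sup.1 hf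
    obtain ⟨n, rfl⟩ := AddSubgroup.mem_zmultiples_iff.1 hy
    refine ⟨n, ?_, ?_⟩
    · intro hn
      exact hf0 (hEs.2 _ (E.add_mem he hn) hf1)
    · have h1 : p • (e + n • x) ∈ E := hEs.1 (hpF _ hf1)
      have h2 : (p : ℤ) • (n • x) = p • (e + n • x) - p • e := by
        rw [natCast_zsmul, smul_add]; abel
      rw [h2]
      exact E.sub_mem h1 (E.nsmul_mem he p)
  refine ⟨E, hEs.2, ?_⟩
  intro x
  by_cases hx : x ∈ E
  · exact ⟨0, by simpa using hx⟩
  obtain ⟨n, hn, hpn⟩ := key x hx
  have hn0 : n ≠ 0 := by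
    rintro rfl; apply hn; rw [zero_smul]; exact E.zero_mem
  have hm : ((p : ℤ) * n) • x ∈ E := by rw [mul_smul]; exact hpn
  have hm0 : (p : ℤ) * n ≠ 0 := mul_ne_zero (by exact_mod_cast hp.ne_zero) hn0
  have hfin : FiniteMultiplicity (p : ℤ) ((p : ℤ) * n) := by
    rw [Int.finiteMultiplicity_iff]
    exact ⟨by simpa using hp.one_lt.ne', hm0⟩
  obtain ⟨m', hm', hpm'⟩ := hfin.exists_eq_pow_mul_and_not_dvd
  set a := multiplicity (p : ℤ) ((p : ℤ) * n) with ha
  refine ⟨a, ?_⟩
  by_contra hcon
  obtain ⟨n', hn', hpn'⟩ := key _ hcon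
  apply hn'
  have hcop : IsCoprime (p : ℤ) m' := (Nat.prime_iff_prime_int.1 hp).coprime_iff_not_dvd.2 hpm'
  obtain ⟨u, v, huv⟩ := hcop
  have hmx : m' • ((p ^ a) • x) ∈ E := by
    have : m' • ((p ^ a) • x) = ((p : ℤ) * n) • x := by
      rw [hm', ← natCast_zsmul, smul_smul, mul_comm]
      push_cast
      rfl
    rw [this]; exact hm
  have e : n' • ((p ^ a) • x) = u • ((p : ℤ) • (n' • ((p ^ a) • x)))
      + (v * n') • (m' • ((p ^ a) • x)) := by
    simp only [smul_smul]
    rw [← add_smul]
    congr 1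
    have : n' = (u * p + v * m') * n' := by rw [huv, one_mul]
    nlinarith [this]
  rw [e]
  exact E.add_mem (E.zsmul_mem hpn' u) (E.zsmul_mem hmx _)

/-- The conclusion we are after, with the uncountable quotient witnessed by a set of
representatives. -/
def HasBigQuotient (A : Type*) [AddCommGroup A] : Prop :=
  ∃ p : ℕ, p.Prime ∧ ∃ E : AddSubgroup A, (∀ x : A, ∃ n : ℕ, (p ^ n) • x ∈ E) ∧
    ∃ s : Set A, ¬ s.Countable ∧ ∀ x ∈ s, ∀ y ∈ s, x - y ∈ E → x = y

theorem hasBigQuotient_of {p : ℕ} (hp : p.Prime) (F₀ F₁ : AddSubgroup A)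
    (hpF : ∀ x ∈ F₁, p • x ∈ F₀) (s : Set A) (hs : ¬ s.Countable) (hsF : ∀ x ∈ s, x ∈ F₁)
    (hs0 : ∀ x ∈ s, ∀ y ∈ s, x - y ∈ F₀ → x = y) : HasBigQuotient A := by
  obtain ⟨E, hE, hEp⟩ := exists_max_subgroup hp F₀ F₁ hpF
  exact ⟨p, hp, E, hEp, s, hs, fun x hx y hy hxy =>
    hs0 x hx y hy (hE _ hxy (F₁.sub_mem (hsF x hx) (hsF y hy)))⟩

theorem HasBigQuotient.comap {B : Type*} [AddCommGroup B] (f : A →+ B)
    (hf : Function.Surjective f) (h : HasBigQuotient B) : HasBigQuotient A := by
  obtain ⟨p, hp, E, hE, s, hs, hsE⟩ := h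
  refine ⟨p, hp, E.comap f, ?_, Function.surjInv hf '' s, ?_, ?_⟩
  · intro x
    obtain ⟨n, hn⟩ := hE (f x)
    exact ⟨n, by rw [AddSubgroup.mem_comap, map_nsmul]; exact hn⟩
  · intro hc
    exact hs (countable_of_injective_of_countable_image
      (Function.injective_surjInv hf).injOn hc)
  · rintro _ ⟨x, hx, rfl⟩ _ ⟨y, hy, rfl⟩ hxy
    rw [AddSubgroup.mem_comap, map_sub, Function.surjInv_eq hf, Function.surjInv_eq hf] at hxy
    rw [hsE x hx y hy hxy]

/-- The torsion case. -/
theorem hasBigQuotient_of_torsion (hA : ¬ (univ : Set A).Countable)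
    (htor : ∀ x : A, ∃ n : ℕ, n ≠ 0 ∧ n • x = 0) : HasBigQuotient A := by
  by_cases hcon : ∃ p : ℕ, p.Prime ∧ ¬ {x : A | p • x = 0}.Countable
  · obtain ⟨p, hp, hunc⟩ := hcon
    let F₁ : AddSubgroup A :=
      { carrier := {x : A | p • x = 0}
        add_mem' := by
          intro a b ha hb
          change p • (a + b) = 0
          have ha' : p • a = 0 := ha
          have hb' : p • b = 0 := hb
          rw [smul_add, ha', hb', add_zero]
        zero_mem' := smul_zero _
        neg_mem' := by
          intro a ha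
          change p • (-a) = 0
          have ha' : p • a = 0 := ha
          rw [smul_neg, ha', neg_zero] }
    refine hasBigQuotient_of hp ⊥ F₁ ?_ {x : A | p • x = 0} hunc (fun x hx => hx) ?_
    · intro x hx
      exact AddSubgroup.mem_bot.2 hx
    · intro x _ y _ hxy
      exact sub_eq_zero.1 (AddSubgroup.mem_bot.1 hxy)
  · push Not at hcon
    exfalso
    apply hA
    have key : ∀ n : ℕ, n ≠ 0 → {x : A | n • x = 0}.Countable := by
      intro n
      induction n using induction_on_primes with
      | zero => intro h; exact absurd rfl h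
      | one =>
        intro _
        have : {x : A | (1 : ℕ) • x = 0} = {0} := by
          ext x; simp
        rw [this]
        exact countable_singleton _
      | prime_mul p n hp ih =>
        intro hpn
        have hn : n ≠ 0 := by rintro rfl; simp at hpn
        have hsub : {x : A | (p * n) • x = 0} ⊆
            ⋃ c ∈ {x : A | n • x = 0}, {x : A | p • x = c} := by
          intro x hx
          rw [mem_iUnion₂]
          refine ⟨p • x, ?_, rfl⟩
          change n • (p • x) = 0
          rw [smul_smul, mul_comm]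
          exact hx
        refine Countable.mono hsub (Countable.biUnion (ih hn) ?_)
        intro c _
        by_cases hne : ∃ x₀ : A, p • x₀ = c
        · obtain ⟨x₀, hx₀⟩ := hne
          have : {x : A | p • x = c} ⊆ (fun y => x₀ + y) '' {x : A | p • x = 0} := by
            intro x hx
            refine ⟨x - x₀, ?_, by simp⟩
            change p • (x - x₀) = 0
            have hx' : p • x = c := hx
            rw [smul_sub, hx', hx₀, sub_self]
          exact Countable.mono this ((hcon p hp).image _)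
        · have : {x : A | p • x = c} = ∅ := by
            rw [eq_empty_iff_forall_notMem]
            intro x hx
            exact hne ⟨x, hx⟩
          rw [this]
          exact countable_empty
    have : (univ : Set A) ⊆ ⋃ n ∈ {n : ℕ | n ≠ 0}, {x : A | n • x = 0} := by
      intro x _
      obtain ⟨n, hn, hx⟩ := htor x
      exact mem_iUnion₂.2 ⟨n, hn, hx⟩
    exact Countable.mono this (Countable.biUnion (to_countable _) key)

theorem hasBigQuotient (hA : ¬ (univ : Set A).Countable) : HasBigQuotient A := by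
  obtain ⟨s, hs, hmax⟩ := exists_maximal_linearIndepOn ℤ (id : A → A)
  rw [image_id] at hmax
  by_cases hsc : s.Countable
  · -- the quotient by the span is an uncountable torsion group
    let F : AddSubgroup A := (Submodule.span ℤ s).toAddSubgroup
    have hFc : (F : Set A).Countable := by
      have : Countable s := hsc.to_subtype
      have h1 : (F : Set A) = range (Finsupp.linearCombination ℤ ((↑) : s → A)) := by
        have := Finsupp.range_linearCombination (R := ℤ) (v := ((↑) : s → A))
        rw [Subtype.range_coe] at this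
        rw [← LinearMap.coe_range, this]
        rfl
      rw [h1]
      exact countable_range _
    have hB : ¬ (univ : Set (A ⧸ F)).Countable := by
      intro hc
      apply hA
      have h2 : (univ : Set A) ⊆ ⋃ c ∈ (univ : Set (A ⧸ F)), (fun a : A => (a : A ⧸ F)) ⁻¹' {c} := by
        intro x _
        exact mem_iUnion₂.2 ⟨_, mem_univ _, rfl⟩
      refine Countable.mono h2 (Countable.biUnion hc ?_)
      intro c _
      obtain ⟨a, rfl⟩ := QuotientAddGroup.mk_surjective c
      have : (fun a : A => (a : A ⧸ F)) ⁻¹' {(a : A ⧸ F)} ⊆ (fun f => a + f) '' (F : Set A) := by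
        intro x hx
        have hx' : (x : A ⧸ F) = (a : A ⧸ F) := hx
        refine ⟨-a + x, ?_, by simp⟩
        exact QuotientAddGroup.eq.1 hx'.symm
      exact Countable.mono this (hFc.image _)
    refine HasBigQuotient.comap (QuotientAddGroup.mk' F) (QuotientAddGroup.mk'_surjective F)
      (hasBigQuotient_of_torsion hB ?_)
    intro c
    obtain ⟨a, rfl⟩ := QuotientAddGroup.mk_surjective c
    have hex : ∃ k : ℤ, k ≠ 0 ∧ k • a ∈ Submodule.span ℤ s := by
      by_cases has : a ∈ s
      · exact ⟨1, one_ne_zero, by rw [one_smul]; exact Submodule.subset_span has⟩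
      · exact hmax a has
    obtain ⟨k, hk, hka⟩ := hex
    refine ⟨k.natAbs, Int.natAbs_ne_zero.2 hk, ?_⟩
    rw [← QuotientAddGroup.mk_nsmul, QuotientAddGroup.eq_zero_iff]
    change k.natAbs • a ∈ Submodule.span ℤ s
    rw [← natCast_zsmul]
    rcases Int.natAbs_eq k with h | h
    · rw [← h]; exact hka
    · have h' : ((k.natAbs : ℕ) : ℤ) = -k := by omega
      rw [h', neg_smul]
      exact Submodule.neg_mem _ hka
  · -- the span modulo its double
    let F₁ : AddSubgroup A := (Submodule.span ℤ s).toAddSubgroup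
    let F₀ : AddSubgroup A := F₁.map (zsmulAddGroupHom 2 : A →+ A)
    refine hasBigQuotient_of Nat.prime_two F₀ F₁ ?_ s hsc ?_ ?_
    · intro x hx
      refine ⟨x, hx, ?_⟩
      simp [zsmulAddGroupHom, two_smul]
    · intro x hx
      exact Submodule.subset_span hx
    · intro x hx y hy hxy
      by_contra hne
      obtain ⟨z, hz, hz2⟩ := hxy
      have hz' : z ∈ Submodule.span ℤ s := hz
      have hzz : (2 : ℤ) • z = x - y := hz2
      have hz'' : z ∈ Submodule.span ℤ (range ((↑) : s → A)) := by
        rw [Subtype.range_coe]; exact hz'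
      obtain ⟨c, rfl⟩ := (Finsupp.mem_span_range_iff_exists_finsupp).1 hz''
      have hli : LinearIndependent ℤ ((↑) : s → A) := hs
      have h1 : Finsupp.linearCombination ℤ ((↑) : s → A) ((2 : ℤ) • c) =
          Finsupp.linearCombination ℤ ((↑) : s → A)
            (Finsupp.single (⟨x, hx⟩ : s) 1 - Finsupp.single (⟨y, hy⟩ : s) 1) := by
        rw [map_smul, map_sub, Finsupp.linearCombination_single, Finsupp.linearCombination_single,
          one_smul, one_smul, ← hzz]
        rfl
      have h2 := hli h1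
      have h3 := DFunLike.congr_fun h2 (⟨x, hx⟩ : s)
      have hyx : (⟨x, hx⟩ : s) ≠ ⟨y, hy⟩ := fun h => hne (congrArg Subtype.val h)
      rw [Finsupp.smul_apply, Finsupp.sub_apply, Finsupp.single_eq_same,
        Finsupp.single_eq_of_ne hyx, smul_eq_mul] at h3
      omega

end Algebra

end Pool.Agent.MP_47df8f_gt
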