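import Mathlib

/-!
Closed `Gδ` subgroups of a compact commutative group.
-/

set_option autoImplicit false
open Filter Topology Set
open scoped Pointwise

namespace Pool.Agent.MP_47df8f_gt

section Group

variable {P : Type*} [CommGroup P] [TopologicalSpace P] [IsTopologicalGroup P]

theorem exists_half {U : Set P} (hU : U ∈ 𝓝 (1 : P)) :
    ∃ V : Set P, IsOpen V ∧ (1 : P) ∈ V ∧ (∀ x ∈ V, x⁻¹ ∈ V) ∧ V * V ⊆ U := by
  obtain ⟨V, hVo, hV1, hVV⟩ := exists_open_nhds_one_mul_subset hU
  refine ⟨V ∩ V⁻¹, hVo.inter hVo.inv, ⟨hV1, by simpa using hV1⟩, ?_,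
    (mul_subset_mul inter_subset_left inter_subset_left).trans hVV⟩
  rintro x ⟨hx, hx'⟩
  exact ⟨by simpa using hx', by simpa using hx⟩

/-- Every countable family of neighbourhoods of `1` contains a common closed `Gδ` subgroup. -/
theorem exists_closed_isGdelta_subgroup (U : ℕ → Set P) (hU : ∀ n, U n ∈ 𝓝 (1 : P)) :
    ∃ M : Subgroup P, IsClosed (M : Set P) ∧ IsGδ (M : Set P) ∧ ∀ n, (M : Set P) ⊆ U n := by
  choose! half h1 h2 h3 h4 using fun (U : Set P) (hU : U ∈ 𝓝 (1 : P)) => exists_half hU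
  let V : ℕ → Set P := fun n => Nat.rec (half (U 0)) (fun n W => half (W ∩ U (n + 1))) n
  have hV0 : V 0 = half (U 0) := rfl
  have hVs : ∀ n, V (n + 1) = half (V n ∩ U (n + 1)) := fun n => rfl
  have hVn : ∀ n, IsOpen (V n) ∧ (1 : P) ∈ V n ∧ (∀ x ∈ V n, x⁻¹ ∈ V n) := by
    intro n
    induction n with
    | zero => exact ⟨h1 _ (hU 0), h2 _ (hU 0), h3 _ (hU 0)⟩
    | succ n ih =>
      have : V n ∩ U (n + 1) ∈ 𝓝 (1 : P) := Filter.inter_mem (ih.1.mem_nhds ih.2.1) (hU _)
      rw [hVs]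
      exact ⟨h1 _ this, h2 _ this, h3 _ this⟩
  have hnh : ∀ n, V n ∩ U (n + 1) ∈ 𝓝 (1 : P) := fun n =>
    Filter.inter_mem ((hVn n).1.mem_nhds (hVn n).2.1) (hU _)
  have hmul : ∀ n, V (n + 1) * V (n + 1) ⊆ V n := fun n => by
    rw [hVs]; exact (h4 _ (hnh n)).trans inter_subset_left
  have hsub : ∀ n, V n ⊆ U n := by
    intro n
    cases n with
    | zero =>
      intro x hx
      exact h4 _ (hU 0) ⟨x, hx, 1, (hVn 0).2.1, mul_one x⟩
    | succ n =>
      intro x hx
      have hx' : x ∈ half (V n ∩ U (n + 1)) := hx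
      exact (h4 _ (hnh n) ⟨x, hx', 1, h2 _ (hnh n), mul_one x⟩).2
  let M : Subgroup P :=
    { carrier := ⋂ n, V n
      mul_mem' := by
        intro a b ha hb
        rw [mem_iInter] at ha hb ⊢
        intro n
        exact hmul n ⟨a, ha (n + 1), b, hb (n + 1), rfl⟩
      one_mem' := mem_iInter.2 fun n => (hVn n).2.1
      inv_mem' := by
        intro a ha
        rw [mem_iInter] at ha ⊢
        exact fun n => (hVn n).2.2 a (ha n) }
  have hM : (M : Set P) = ⋂ n, V n := rfl
  refine ⟨M, ?_, ?_, ?_⟩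
  · rw [← closure_subset_iff_isClosed]
    intro x hx
    rw [hM, mem_iInter]
    intro n
    have hx1 : x ∈ closure (V (n + 1)) :=
      closure_mono (by rw [hM]; exact iInter_subset V (n + 1)) hx
    have hopen : IsOpen (x • V (n + 1)) := (hVn (n + 1)).1.smul x
    obtain ⟨w, ⟨v, hv, rfl⟩, hw⟩ := (mem_closure_iff.1 hx1) (x • V (n + 1)) hopen
      ⟨1, (hVn (n + 1)).2.1, by simp⟩
    have : x = (x • v) * v⁻¹ := by simp
    rw [this]
    exact hmul n ⟨_, hw, _, (hVn (n + 1)).2.2 v hv, rfl⟩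
  · rw [hM]
    exact IsGδ.iInter fun n => (hVn n).1.isGδ
  · intro n
    rw [hM]
    exact (iInter_subset _ n).trans (hsub n)

/-- In a compact Hausdorff group, the product of a closed set with a closed `Gδ` set is `Gδ`. -/
theorem isGdelta_mul [CompactSpace P] [T2Space P] {N M : Set P} (hN : IsClosed N)
    (hM : IsClosed M) (hG : IsGδ M) : IsGδ (N * M) := by
  obtain ⟨f, hf, -, -, hf01⟩ := exists_continuous_one_zero_of_isCompact_of_isGδ hM.isCompact hG
    isClosed_empty (disjoint_empty M)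
  have key : N * M = ⋂ k : ℕ, N * {x | 1 - 1 / ((k : ℝ) + 1) < f x} := by
    apply Subset.antisymm
    · apply subset_iInter
      intro k
      apply mul_subset_mul_left
      intro x hx
      rw [hf] at hx
      have : f x = 1 := hx
      simp only [mem_ofPred_eq, this]
      have : (0 : ℝ) < 1 / ((k : ℝ) + 1) := by positivity
      linarith
    · intro x hx
      rw [mem_iInter] at hx
      have hne : N.Nonempty := by
        obtain ⟨n, hn, -⟩ := hx 0
        exact ⟨n, hn⟩
      obtain ⟨n, hn, hmax⟩ := hN.isCompact.exists_isMaxOn hne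
        (f := fun n => f (n⁻¹ * x)) (by fun_prop)
      refine ⟨n, hn, n⁻¹ * x, ?_, by simp⟩
      rw [hf]
      change f (n⁻¹ * x) = 1
      apply le_antisymm (hf01 _).2
      apply le_of_forall_pos_lt_add
      intro ε hε
      obtain ⟨k, hk⟩ := exists_nat_one_div_lt hε
      obtain ⟨m, hm, y, hy, rfl⟩ := hx k
      have h1 : f (m⁻¹ * (m * y)) ≤ f (n⁻¹ * (m * y)) := hmax hm
      rw [inv_mul_cancel_left] at h1
      have h2 : 1 - 1 / ((k : ℝ) + 1) < f y := hy
      linarith
  rw [key]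
  apply IsGδ.iInter
  intro k
  apply IsOpen.isGδ
  apply IsOpen.mul_left
  exact isOpen_lt continuous_const f.continuous

end Group

end Pool.Agent.MP_47df8f_gt
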