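import Pool.Agent.MP_47df8f_gt.Basic

/-!
The chain lemma: in a compact commutative group whose identity is not a `Gδ` point there is a set
which meets every closed `Gδ` subgroup while no countable subset of it accumulates at the identity.
-/

set_option autoImplicit false
open Filter Topology Set
open scoped Pointwise

namespace Pool.Agent.MP_47df8f_gt

section Chain

variable {P : Type*} [CommGroup P] [TopologicalSpace P] [IsTopologicalGroup P]
  [CompactSpace P] [T2Space P]

variable (P) in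
/-- The closed `Gδ` subgroups. -/
def GSub : Type _ := {M : Subgroup P // IsClosed (M : Set P) ∧ IsGδ (M : Set P)}

omit [CompactSpace P] in
/-- One step: below each closed `Gδ` subgroup there is another one, together with a closed set. -/
theorem exists_step (h : ¬ IsGδ ({1} : Set P)) (M : GSub P) :
    ∃ (M' : GSub P) (C : Set P), M'.1 ≤ M.1 ∧ IsClosed C ∧ (1 : P) ∉ C ∧
      (∀ x ∈ C, ∀ m ∈ M'.1, x * m ∈ C) ∧ (∀ y : P, ∃ m ∈ M.1, y * m ∈ C) := by
  obtain ⟨M, hMc, hMG⟩ := M
  have hne : ∃ z ∈ M, z ≠ 1 := by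
    by_contra hcon
    push Not at hcon
    apply h
    have : (M : Set P) = {1} := by
      apply Subset.antisymm
      · intro z hz; exact hcon z hz
      · rintro _ rfl; exact M.one_mem
    rwa [this] at hMG
  obtain ⟨z, hzM, hz1⟩ := hne
  obtain ⟨V1, h1o, h11, h1i, h1m⟩ := exists_half (P := P) (U := {z}ᶜ)
    (isClosed_singleton.isOpen_compl.mem_nhds (by simpa using hz1.symm))
  obtain ⟨V, h2o, h21, h2i, h2m⟩ := exists_half (h1o.mem_nhds h11)
  obtain ⟨M', hM'c, hM'G, hM'U⟩ := exists_closed_isGdelta_subgroup (P := P) (fun _ => V)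
    (fun _ => h2o.mem_nhds h21)
  have hV : (M' : Set P) ⊆ V := hM'U 0
  refine ⟨⟨M' ⊓ M, ?_, ?_⟩, ((M' ⊓ M : Subgroup P) * V : Set P)ᶜ, inf_le_right, ?_, ?_, ?_, ?_⟩
  · rw [Subgroup.coe_inf]; exact hM'c.inter hMc
  · rw [Subgroup.coe_inf]; exact hM'G.inter hMG
  · exact (h2o.mul_left).isClosed_compl
  · simp only [mem_compl_iff, not_not]
    exact ⟨1, (M' ⊓ M).one_mem, 1, h21, by simp⟩
  · intro x hx m hm hxm
    apply hx
    obtain ⟨a, ha, v, hv, hav⟩ := hxm
    refine ⟨m⁻¹ * a, (M' ⊓ M).mul_mem ((M' ⊓ M).inv_mem hm) ha, v, hv, ?_⟩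
    simp only at hav ⊢
    rw [mul_assoc, hav, mul_comm x m, inv_mul_cancel_left]
  · intro y
    by_contra hcon
    push Not at hcon
    have ha := hcon 1 M.one_mem
    have hb := hcon z hzM
    simp only [mem_compl_iff, not_not, mul_one] at ha hb
    obtain ⟨a, ha, v, hv, hav⟩ := ha
    obtain ⟨b, hb, w, hw, hbw⟩ := hb
    simp only at hav hbw
    have hz : z = (v⁻¹ * w) * (a⁻¹ * b) := by
      have e : z = (a * v)⁻¹ * (b * w) := by rw [hav, hbw, inv_mul_cancel_left]
      rw [e, mul_inv, mul_comm a⁻¹ v⁻¹, mul_comm b w, mul_mul_mul_comm]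
    have : z ∈ ({z}ᶜ : Set P) := by
      apply h1m
      rw [hz]
      refine ⟨_, h2m ⟨_, h2i v hv, _, hw, rfl⟩, _, ?_, rfl⟩
      have hab : a⁻¹ * b ∈ V := hV (M'.mul_mem (M'.inv_mem ha.1) hb.1)
      exact h2m ⟨_, hab, 1, h21, mul_one _⟩
    exact this rfl

/-- The chain lemma. -/
theorem exists_chain_set (h : ¬ IsGδ ({1} : Set P)) :
    ∃ Y : Set P, (∀ M : Subgroup P, IsClosed (M : Set P) → IsGδ (M : Set P) → ∃ y ∈ Y, y ∈ M) ∧
      (∀ B ⊆ Y, B.Countable → (1 : P) ∉ closure B) := by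
  choose σ C hσM hCc h1C hCσ hCM using exists_step h
  -- the strict relation
  let r : GSub P → GSub P → Prop := fun M₁ M₂ => M₁.1 ≤ (σ M₂).1
  have r_irrefl : ∀ M, ¬ r M M := by
    intro M hM
    obtain ⟨m, hm, hmC⟩ := hCM M 1
    have := hCσ M _ hmC m⁻¹ ((σ M).1.inv_mem (hM hm))
    rw [one_mul, mul_inv_cancel] at this
    exact h1C M this
  have r_le : ∀ M₁ M₂, r M₁ M₂ → M₁.1 ≤ M₂.1 := fun M₁ M₂ hM => hM.trans (hσM M₂)
  have r_trans : ∀ M₁ M₂ M₃, M₁.1 ≤ M₂.1 → r M₂ M₃ → r M₁ M₃ := fun M₁ M₂ M₃ h1 h2 => h1.trans h2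
  let S : Set (GSub P) := maxChain r
  have hS : IsMaxChain r S := maxChain_spec
  -- every countable subset of the maximal chain has a strict lower bound in it
  have key : ∀ S₀ : Set (GSub P), S₀ ⊆ S → S₀.Countable → ∃ M ∈ S, ∀ M₀ ∈ S₀, r M M₀ := by
    intro S₀ hS₀ hc
    by_contra hcon
    push Not at hcon
    let Ms : GSub P := ⟨⨅ M₀ ∈ S₀, (σ M₀).1, by
      simp only [Subgroup.coe_iInf]
      exact isClosed_biInter fun M _ => (σ M).2.1, by
      simp only [Subgroup.coe_iInf]
      exact IsGδ.biInter hc fun M _ => (σ M).2.2⟩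
    have hMs : ∀ M₀ ∈ S₀, r Ms M₀ := fun M₀ hM₀ => iInf₂_le M₀ hM₀
    have hall : ∀ M ∈ S, r Ms M := by
      intro M hM
      obtain ⟨M₀, hM₀, hn⟩ := hcon M hM
      by_cases he : M = M₀
      · rw [he]; exact hMs M₀ hM₀
      · rcases hS.1 hM (hS₀ hM₀) he with h1 | h1
        · exact absurd h1 hn
        · exact r_trans _ _ _ (r_le _ _ (hMs M₀ hM₀)) h1
    have hins : IsChain r (insert Ms S) := hS.1.insert fun b hb _ => Or.inl (hall b hb)
    have hMsS : Ms ∈ S := by
      rw [hS.2 hins (subset_insert _ _)]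
      exact mem_insert _ _
    exact r_irrefl _ (hall _ hMsS)
  have hSne : S.Nonempty := by
    obtain ⟨M, hM, -⟩ := key ∅ (empty_subset _) countable_empty
    exact ⟨M, hM⟩
  let Y : Set P := {y | ∃ M ∈ S, y ∈ M.1 ∧ ∀ M₁ ∈ S, (M₁ = M ∨ r M₁ M) → y ∈ C M₁}
  refine ⟨Y, ?_, ?_⟩
  · intro Ms hMc hMG
    -- the intersection of the chain
    let Ninf : Subgroup P := ⨅ M ∈ S, M.1
    have hNle : ∀ M ∈ S, Ninf ≤ M.1 := fun M hM => iInf₂_le M hM
    have hNσ : ∀ M ∈ S, Ninf ≤ (σ M).1 := by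
      intro M hM
      obtain ⟨M₂, hM₂, hr⟩ := key {M} (singleton_subset_iff.2 hM) (countable_singleton M)
      exact (hNle M₂ hM₂).trans (hr M rfl)
    have hNc : IsClosed (Ninf : Set P) := by
      simp only [Ninf, Subgroup.coe_iInf]
      exact isClosed_biInter fun M _ => M.2.1
    have hL : IsGδ ((Ninf : Set P) * (Ms : Set P)) := isGdelta_mul hNc hMc hMG
    obtain ⟨O, hOo, hO⟩ := hL.eq_iInter_nat
    have hNL : (Ninf : Set P) ⊆ (Ninf : Set P) * (Ms : Set P) := fun x hx =>
      ⟨x, hx, 1, Ms.one_mem, mul_one x⟩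
    have hex : ∀ n, ∃ M : S, (M.1.1 : Set P) ⊆ O n := by
      intro n
      have : Nonempty S := hSne.to_subtype
      apply exists_subset_nhds_of_isCompact (V := fun M : S => (M.1.1 : Set P))
      · intro A B
        by_cases he : A = B
        · exact ⟨A, subset_rfl, by rw [he]⟩
        · rcases hS.1 A.2 B.2 (fun hc => he (Subtype.ext hc)) with h1 | h1
          · exact ⟨A, subset_rfl, r_le _ _ h1⟩
          · exact ⟨B, r_le _ _ h1, subset_rfl⟩
      · intro A; exact A.1.2.1.isCompact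
      · intro x hx
        apply (hOo n).mem_nhds
        have hxN : x ∈ (Ninf : Set P) := by
          simp only [Ninf, Subgroup.coe_iInf]
          rw [mem_iInter₂]
          intro M hM
          exact mem_iInter.1 hx ⟨M, hM⟩
        have hxL := hNL hxN
        rw [hO] at hxL
        exact mem_iInter.1 hxL n
    choose Mn hMn using hex
    obtain ⟨M, hMS, hMr⟩ := key (range fun n => (Mn n).1) (by
      rintro _ ⟨n, rfl⟩; exact (Mn n).2) (countable_range _)
    have hML : (M.1 : Set P) ⊆ (Ninf : Set P) * (Ms : Set P) := by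
      rw [hO]
      apply subset_iInter
      intro n
      exact Subset.trans (r_le _ _ (hMr _ ⟨n, rfl⟩)) (hMn n)
    -- a point of `M` in all the sets `C M₁`
    have hpt : ((M.1 : Set P) ∩ ⋂ i : {M₁ : GSub P // M₁ ∈ S ∧ (M₁ = M ∨ r M₁ M)},
        C i.1).Nonempty := by
      apply M.2.1.isCompact.inter_iInter_nonempty
      · intro i; exact hCc i.1
      · intro u
        classical
        induction' hn : u.card with n ih generalizing u
        · rw [Finset.card_eq_zero] at hn
          subst hn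
          exact ⟨1, M.1.one_mem, by simp⟩
        · have hune : u.Nonempty := by
            rw [← Finset.card_pos, hn]; exact Nat.succ_pos n
          obtain ⟨i, hiu, hmin⟩ := Finset.exists_minimalFor (fun i => i.1.1) u hune
          obtain ⟨x, hxM, hx⟩ := ih (u.erase i) (by rw [Finset.card_erase_of_mem hiu, hn]; rfl)
          obtain ⟨m, hm, hmC⟩ := hCM i.1 x
          have hiM : i.1.1 ≤ M.1 := by
            rcases i.2.2 with h1 | h1
            · rw [h1]
            · exact r_le _ _ h1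
          refine ⟨x * m, M.1.mul_mem hxM (hiM hm), ?_⟩
          rw [mem_iInter₂]
          intro j hj
          by_cases hji : j = i
          · rw [hji]; exact hmC
          · have hxj : x ∈ C j.1 := mem_iInter₂.1 hx j (Finset.mem_erase.2 ⟨hji, hj⟩)
            rcases hS.1 j.2.1 i.2.1 (fun hc => hji (Subtype.ext hc)) with h1 | h1
            · -- `j` strictly below `i` contradicts minimality
              exfalso
              have h2 : i.1.1 ≤ j.1.1 := hmin hj (r_le _ _ h1)
              exact r_irrefl i.1 (h2.trans h1)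
            · exact hCσ j.1 x hxj m (h1 hm)
    obtain ⟨x, hxM, hx⟩ := hpt
    obtain ⟨z, hz, y, hy, hzy⟩ := hML hxM
    simp only at hzy
    have hyx : y = x * z⁻¹ := by rw [← hzy, mul_comm z y, mul_inv_cancel_right]
    refine ⟨y, ⟨M, hMS, ?_, ?_⟩, hy⟩
    · rw [hyx]
      exact M.1.mul_mem hxM (M.1.inv_mem (hNle M hMS hz))
    · intro M₁ hM₁ hr
      rw [hyx]
      exact hCσ M₁ x (mem_iInter.1 hx ⟨M₁, hM₁, hr⟩) _ ((σ M₁).1.inv_mem (hNσ M₁ hM₁ hz))
  · intro B hB hBc
    have : Nonempty (GSub P) := ⟨hSne.some⟩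
    choose! f hf using fun (y : P) (hy : y ∈ Y) => hy
    obtain ⟨M, hMS, hMr⟩ := key (f '' B) (by
      rintro _ ⟨b, hb, rfl⟩
      exact (hf b (hB hb)).1) (hBc.image f)
    have hBC : B ⊆ C M := fun b hb =>
      (hf b (hB hb)).2.2 M hMS (Or.inr (hMr _ ⟨b, hb, rfl⟩))
    intro h1
    exact h1C M ((hCc M).closure_subset_iff.2 hBC h1)

end Chain

end Pool.Agent.MP_47df8f_gt
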