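import Pool.Agent.MP_47df8f_gt.Basic

/-!
Continuous characters separate the points of a compact commutative group.
The proof uses the Gelfand transform of the commutative `C*`-algebra generated by the translations
and one convolution operator on `L²`.
-/

set_option autoImplicit false
open MeasureTheory Filter Topology Set
open scoped ENNReal

namespace Pool.Agent.MP_47df8f_gt

noncomputable section

section Ops

variable {Z : Type*} [CommGroup Z] [TopologicalSpace Z] [IsTopologicalGroup Z] [CompactSpace Z]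
  [T2Space Z] [MeasurableSpace Z] [BorelSpace Z]

instance factTwo : Fact ((2 : ℝ≥0∞) ≠ ∞) := ⟨by norm_num⟩

variable (Z) in
/-- The Hilbert space of square integrable functions. -/
abbrev HS : Type _ := Lp ℂ 2 (Measure.haar : Measure Z)

/-- Translation operator. -/
def trans (g : Z) : HS Z →L[ℂ] HS Z :=
  LinearMap.mkContinuous
    { toFun := fun φ => DomMulAct.mk g • φ
      map_add' := fun a b => smul_add _ a b
      map_smul' := fun c a => smul_comm _ c a } 1 (fun φ => by
        simp only [LinearMap.coe_mk, AddHom.coe_mk, one_mul]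
        exact (DomMulAct.norm_smul_Lp _ φ).le)

theorem trans_apply (g : Z) (φ : HS Z) : trans g φ = DomMulAct.mk g • φ := rfl

theorem norm_trans_apply (g : Z) (φ : HS Z) : ‖trans g φ‖ = ‖φ‖ := DomMulAct.norm_smul_Lp _ φ

theorem trans_trans (g h : Z) (φ : HS Z) : trans g (trans h φ) = trans (g * h) φ := by
  rw [trans_apply, trans_apply, trans_apply, smul_smul, ← DomMulAct.mk_mul, mul_comm]

theorem trans_one : trans (1 : Z) = 1 := by
  ext1 φ
  rw [trans_apply, DomMulAct.mk_one, one_smul]
  rfl

theorem trans_mul (g h : Z) : trans (g * h) = trans g * trans h := by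
  ext1 φ
  exact (trans_trans g h φ).symm

theorem inner_trans (g : Z) (φ ψ : HS Z) :
    inner ℂ (trans g φ) (trans g ψ) = inner ℂ φ ψ := by
  let L : HS Z →ₗᵢ[ℂ] HS Z := ⟨(trans g).toLinearMap, norm_trans_apply g⟩
  exact L.inner_map_map φ ψ

theorem inner_trans_left (g : Z) (φ ψ : HS Z) :
    inner ℂ (trans g φ) ψ = inner ℂ φ (trans g⁻¹ ψ) := by
  have h := inner_trans g φ (trans g⁻¹ ψ)
  rw [trans_trans, mul_inv_cancel, trans_one] at h
  exact h

theorem star_trans (g : Z) : star (trans g) = trans g⁻¹ := by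
  rw [ContinuousLinearMap.star_eq_adjoint]
  symm
  rw [ContinuousLinearMap.eq_adjoint_iff]
  intro φ ψ
  have := inner_trans_left g⁻¹ φ ψ
  rw [inv_inv] at this
  exact this

theorem continuous_trans_apply (φ : HS Z) : Continuous fun g : Z => trans g φ := by
  have : Continuous fun g : Z => (DomMulAct.mk g • φ : HS Z) :=
    (DomMulAct.continuous_mk).smul continuous_const
  exact this

/-- The integrand of the convolution operator. -/
theorem integrable_conv (f : C(Z, ℂ)) (φ : HS Z) :
    Integrable (fun y : Z => f y • trans y φ) Measure.haar :=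
  (f.continuous.smul (continuous_trans_apply φ)).integrable_of_hasCompactSupport
    (HasCompactSupport.of_compactSpace _)

theorem integrable_const_haar (c : ℝ) : Integrable (fun _ : Z => c) Measure.haar :=
  integrable_const c

/-- Convolution operator. -/
def conv (f : C(Z, ℂ)) : HS Z →L[ℂ] HS Z :=
  LinearMap.mkContinuous
    { toFun := fun φ => ∫ y, f y • trans y φ ∂Measure.haar
      map_add' := by
        intro a b
        rw [← integral_add (integrable_conv f a) (integrable_conv f b)]
        simp only [map_add, smul_add]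
      map_smul' := by
        intro c a
        simp only [map_smul, RingHom.id_apply]
        rw [← integral_smul]
        congr 1
        ext1 y
        rw [smul_comm] } (‖f‖ * (Measure.haar : Measure Z).real univ) (by
    intro φ
    simp only [LinearMap.coe_mk, AddHom.coe_mk]
    calc ‖∫ y, f y • trans y φ ∂Measure.haar‖ ≤ (‖f‖ * ‖φ‖) * (Measure.haar : Measure Z).real univ := by
          apply norm_integral_le_of_norm_le_const
          filter_upwards with y
          rw [norm_smul, norm_trans_apply]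
          gcongr
          exact f.norm_coe_le_norm y
      _ = _ := by ring)

theorem conv_apply (f : C(Z, ℂ)) (φ : HS Z) :
    conv f φ = ∫ y, f y • trans y φ ∂Measure.haar := rfl

theorem norm_conv_le (f : C(Z, ℂ)) : ‖conv f‖ ≤ ‖f‖ * (Measure.haar : Measure Z).real univ :=
  LinearMap.mkContinuous_norm_le _ (by positivity) _

theorem conv_sub (f f' : C(Z, ℂ)) : conv (f - f') = conv f - conv f' := by
  ext1 φ
  rw [_root_.sub_apply, conv_apply, conv_apply, conv_apply,
    ← integral_sub (integrable_conv f φ) (integrable_conv f' φ)]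
  congr 1
  ext1 y
  rw [ContinuousMap.sub_apply, sub_smul]

theorem trans_conv_comm (g : Z) (f : C(Z, ℂ)) : trans g * conv f = conv f * trans g := by
  ext1 φ
  change trans g (conv f φ) = conv f (trans g φ)
  rw [conv_apply, conv_apply, ← ContinuousLinearMap.integral_comp_comm _ (integrable_conv f φ)]
  congr 1
  ext1 y
  rw [map_smul, trans_trans, trans_trans, mul_comm]

/-- Left translate of a function. -/
def shift (g : Z) (f : C(Z, ℂ)) : C(Z, ℂ) := f.comp ⟨fun y => g⁻¹ * y, by fun_prop⟩

omit [CompactSpace Z] [T2Space Z] [MeasurableSpace Z] [BorelSpace Z] in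
theorem shift_apply (g : Z) (f : C(Z, ℂ)) (y : Z) : shift g f y = f (g⁻¹ * y) := rfl

theorem conv_shift (g : Z) (f : C(Z, ℂ)) : conv (shift g f) = trans g * conv f := by
  ext1 φ
  change conv (shift g f) φ = trans g (conv f φ)
  rw [conv_apply, conv_apply, ← ContinuousLinearMap.integral_comp_comm _ (integrable_conv f φ),
    ← integral_mul_left_eq_self (μ := (Measure.haar : Measure Z)) _ g]
  congr 1
  ext1 y
  rw [map_smul, trans_trans, shift_apply, inv_mul_cancel_left]

omit [CompactSpace Z] [T2Space Z] [MeasurableSpace Z] [BorelSpace Z] in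
theorem continuous_shift (f : C(Z, ℂ)) : Continuous fun g : Z => shift g f := by
  let F : C(Z × Z, ℂ) := f.comp ⟨fun p => p.1⁻¹ * p.2, by fun_prop⟩
  exact F.curry.continuous

theorem continuous_trans_mul_conv (f : C(Z, ℂ)) : Continuous fun g : Z => trans g * conv f := by
  have hL : LipschitzWith ((Measure.haar : Measure Z).real univ).toNNReal
      (conv : C(Z, ℂ) → HS Z →L[ℂ] HS Z) := by
    apply LipschitzWith.of_dist_le_mul
    intro f f'
    rw [dist_eq_norm, dist_eq_norm, ← conv_sub, Real.coe_toNNReal _ (by positivity), mul_comm]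
    exact norm_conv_le _
  have : (fun g : Z => trans g * conv f) = fun g => conv (shift g f) := by
    ext1 g; rw [conv_shift]
  rw [this]
  exact hL.continuous.comp (continuous_shift f)

/-- For a real symmetric function the convolution operator is self-adjoint. -/
theorem star_conv (f : C(Z, ℂ)) (hreal : ∀ y, (starRingEnd ℂ) (f y) = f y)
    (hsym : ∀ y, f y⁻¹ = f y) : star (conv f) = conv f := by
  rw [ContinuousLinearMap.star_eq_adjoint]
  symm
  rw [ContinuousLinearMap.eq_adjoint_iff]
  intro φ ψ
  have h1 : inner ℂ φ (conv f ψ) = ∫ y, f y * inner ℂ φ (trans y ψ) ∂Measure.haar := by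
    rw [conv_apply, ← integral_inner (integrable_conv f ψ)]
    congr 1
    ext1 y
    rw [inner_smul_right]
  have h2 : inner ℂ (conv f φ) ψ = ∫ y, f y * inner ℂ (trans y φ) ψ ∂Measure.haar := by
    rw [← inner_conj_symm, conv_apply, ← integral_inner (integrable_conv f φ), ← integral_conj]
    congr 1
    ext1 y
    rw [inner_smul_right, map_mul, hreal, inner_conj_symm]
  rw [h1, h2, ← integral_inv_eq_self]
  congr 1
  ext1 y
  rw [hsym, inner_trans_left, inv_inv]

/-- The translates of a suitable convolution operator are different from it. -/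
theorem exists_conv_ne {g₀ : Z} (hg : g₀ ≠ 1) : ∃ f : C(Z, ℂ),
    (∀ y, (starRingEnd ℂ) (f y) = f y) ∧ (∀ y, f y⁻¹ = f y) ∧
      trans g₀ * conv f ≠ conv f := by
  obtain ⟨V, hVo, hV1, hVi, hVV⟩ := exists_half (P := Z) (U := {g₀}ᶜ)
    (isClosed_singleton.isOpen_compl.mem_nhds (by simpa using hg.symm))
  obtain ⟨W, hWo, hW1, hWi, hWW⟩ := exists_half (hVo.mem_nhds hV1)
  have hWV : W ⊆ V := fun w hw => hWW ⟨w, hw, 1, hW1, mul_one w⟩
  obtain ⟨f₁, hf0, hf1, hf01⟩ := exists_continuous_zero_one_of_isClosed (X := Z)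
    hWo.isClosed_compl isClosed_singleton (t := {1}) (by
      rw [disjoint_singleton_right]; simpa using hW1)
  let f₂ : C(Z, ℝ) := ⟨fun y => f₁ y * f₁ y⁻¹, by fun_prop⟩
  have hf₂ : ∀ y, f₂ y = f₁ y * f₁ y⁻¹ := fun y => rfl
  have hf₂sym : ∀ y, f₂ y⁻¹ = f₂ y := by
    intro y; rw [hf₂, hf₂, inv_inv, mul_comm]
  have hf₂nn : ∀ y, 0 ≤ f₂ y := fun y => mul_nonneg (hf01 y).1 (hf01 _).1
  have hf₂1 : f₂ 1 = 1 := by
    have : f₁ 1 = 1 := hf1 rfl
    rw [hf₂, inv_one, this, one_mul]
  have hf₂W : ∀ y, f₂ y ≠ 0 → y ∈ W := by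
    intro y hy
    by_contra hyW
    apply hy
    have : f₁ y = 0 := hf0 hyW
    rw [hf₂, this, zero_mul]
  let f : C(Z, ℂ) := ⟨fun y => (f₂ y : ℂ), by fun_prop⟩
  have hf : ∀ y, f y = (f₂ y : ℂ) := fun y => rfl
  refine ⟨f, fun y => by rw [hf, Complex.conj_ofReal], fun y => by rw [hf, hf, hf₂sym], ?_⟩
  intro heq
  rw [← conv_shift] at heq
  let ψ : HS Z := ContinuousMap.toLp 2 (Measure.haar : Measure Z) ℂ f
  have htr : ∀ y : Z, trans y ψ = ContinuousMap.toLp 2 (Measure.haar : Measure Z) ℂ
      (f.comp ⟨fun x => y * x, by fun_prop⟩) := fun y => rfl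
  have hF : ∀ y : Z, inner ℂ ψ (trans y ψ) =
      ((∫ x, f₂ (y * x) * f₂ x ∂(Measure.haar : Measure Z) : ℝ) : ℂ) := by
    intro y
    rw [htr, ContinuousMap.inner_toLp, ← integral_complex_ofReal]
    congr 1
    ext1 x
    change f (y * x) * (starRingEnd ℂ) (f x) = _
    rw [hf, hf, Complex.conj_ofReal]
    push_cast
    rfl
  have hinner : ∀ h : C(Z, ℂ), inner ℂ ψ (conv h ψ) =
      ∫ y, h y * inner ℂ ψ (trans y ψ) ∂Measure.haar := by
    intro h
    rw [conv_apply, ← integral_inner (integrable_conv h ψ)]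
    congr 1
    ext1 y
    rw [inner_smul_right]
  have h0 : inner ℂ ψ (conv (shift g₀ f) ψ) = 0 := by
    rw [hinner]
    have : (fun y : Z => shift g₀ f y * inner ℂ ψ (trans y ψ)) = fun _ => 0 := by
      ext1 y
      by_cases hy : f₂ (g₀⁻¹ * y) = 0
      · rw [shift_apply, hf, hy, Complex.ofReal_zero, zero_mul]
      · rw [hF]
        have : (fun x => f₂ (y * x) * f₂ x) = fun _ => 0 := by
          ext1 x
          by_contra hx
          have hx1 := hf₂W _ (left_ne_zero_of_mul hx)
          have hx2 := hf₂W _ (right_ne_zero_of_mul hx)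
          have hyW : y ∈ V := hWW ⟨y * x, hx1, x⁻¹, hWi _ hx2, by simp⟩
          have hg : g₀ ∈ ({g₀}ᶜ : Set Z) := hVV ⟨y, hyW, (g₀⁻¹ * y)⁻¹,
            hWV (hWi _ (hf₂W _ hy)), by simp⟩
          exact hg rfl
        rw [this]
        simp
    rw [this, integral_zero]
  have hpos : inner ℂ ψ (conv f ψ) ≠ 0 := by
    rw [hinner]
    have hreal : (fun y : Z => f y * inner ℂ ψ (trans y ψ)) = fun y =>
        ((f₂ y * ∫ x, f₂ (y * x) * f₂ x ∂(Measure.haar : Measure Z) : ℝ) : ℂ) := by
      ext1 y
      rw [hF, hf]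
      push_cast
      rfl
    rw [hreal, integral_complex_ofReal]
    have hcont : Continuous fun y : Z => ∫ x, f₂ (y * x) * f₂ x ∂(Measure.haar : Measure Z) := by
      have : (fun y : Z => ∫ x, f₂ (y * x) * f₂ x ∂(Measure.haar : Measure Z)) =
          fun y => (inner ℂ ψ (trans y ψ)).re := by
        ext1 y
        rw [hF, Complex.ofReal_re]
      rw [this]
      exact Complex.continuous_re.comp (continuous_const.inner (continuous_trans_apply ψ))
    have hin : 0 < ∫ x, f₂ (1 * x) * f₂ x ∂(Measure.haar : Measure Z) := by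
      apply Continuous.integral_pos_of_hasCompactSupport_nonneg_nonzero (x := (1 : Z))
      · fun_prop
      · exact HasCompactSupport.of_compactSpace _
      · intro x
        exact mul_nonneg (hf₂nn _) (hf₂nn _)
      · rw [one_mul, hf₂1]; norm_num
    have : 0 < ∫ y, f₂ y * ∫ x, f₂ (y * x) * f₂ x ∂(Measure.haar : Measure Z)
        ∂(Measure.haar : Measure Z) := by
      apply Continuous.integral_pos_of_hasCompactSupport_nonneg_nonzero (x := (1 : Z))
      · exact f₂.continuous.mul hcont
      · exact HasCompactSupport.of_compactSpace _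
      · intro y
        exact mul_nonneg (hf₂nn _) (integral_nonneg fun x => mul_nonneg (hf₂nn _) (hf₂nn _))
      · rw [hf₂1, one_mul]; exact hin.ne'
    exact_mod_cast this.ne'
  rw [heq] at h0
  exact hpos h0

end Ops

section Gelfand

/-- Gelfand: a nonzero element of the closed algebra generated by a commuting self-adjoint family
is detected by a continuous character of that algebra. -/
theorem exists_gelfand {B : Type*} [CStarAlgebra B] {S : Set B}
    (hcomm : ∀ x ∈ S, ∀ y ∈ S, x * y = y * x) (hstar : ∀ y ∈ S, star y ∈ S)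
    (b : (StarAlgebra.adjoin ℂ S).topologicalClosure) (hb : b ≠ 0) :
    ∃ φ : (StarAlgebra.adjoin ℂ S).topologicalClosure →⋆ₐ[ℂ] ℂ, Continuous φ ∧ φ b ≠ 0 := by
  have hcs : ∀ x ∈ S, ∀ y ∈ S, x * star y = star y * x := fun x hx y hy =>
    hcomm x hx _ (hstar y hy)
  have hcm : IsMulCommutative (StarAlgebra.adjoin ℂ S) :=
    StarAlgebra.isMulCommutative_adjoin ℂ hcomm hcs
  let _ : CommRing (StarAlgebra.adjoin ℂ S).topologicalClosure :=
    (StarAlgebra.adjoin ℂ S).commRingTopologicalClosure (fun x y =>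
      Subtype.ext (setLike_mul_comm x.2 y.2))
  let _ : CommCStarAlgebra (StarAlgebra.adjoin ℂ S).topologicalClosure := { }
  obtain ⟨φ, hφ⟩ : ∃ φ : WeakDual.characterSpace ℂ (StarAlgebra.adjoin ℂ S).topologicalClosure,
      φ b ≠ 0 := by
    by_contra hcon
    push Not at hcon
    apply hb
    apply (gelfandTransform_bijective (StarAlgebra.adjoin ℂ S).topologicalClosure).1
    rw [map_zero]
    ext φ
    exact hcon φ
  let Φ : (StarAlgebra.adjoin ℂ S).topologicalClosure →⋆ₐ[ℂ] ℂ :=
    { toFun := φ
      map_one' := map_one φ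
      map_mul' := map_mul φ
      map_zero' := map_zero φ
      map_add' := map_add φ
      commutes' := fun r => AlgHomClass.commutes φ r
      map_star' := map_star φ }
  exact ⟨Φ, φ.1.continuous, hφ⟩

end Gelfand

section Main

variable {Z : Type*} [CommGroup Z] [TopologicalSpace Z] [IsTopologicalGroup Z] [CompactSpace Z]
  [T2Space Z]

/-- Continuous characters separate points from the identity. -/
theorem exists_char_ne {g₀ : Z} (hg : g₀ ≠ 1) :
    ∃ χ : Z →* Circle, Continuous χ ∧ χ g₀ ≠ 1 := by
  let _ : MeasurableSpace Z := borel Z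
  have : BorelSpace Z := ⟨rfl⟩
  obtain ⟨f, hreal, hsym, hne⟩ := exists_conv_ne hg
  let a : HS Z →L[ℂ] HS Z := conv f
  have ha : star a = a := star_conv f hreal hsym
  let S : Set (HS Z →L[ℂ] HS Z) := insert a (range trans)
  have hTT : ∀ g h : Z, trans g * trans h = trans h * trans g := fun g h => by
    rw [← trans_mul, ← trans_mul, mul_comm]
  have hTa : ∀ g : Z, trans g * a = a * trans g := fun g => trans_conv_comm g f
  have hcomm : ∀ x ∈ S, ∀ y ∈ S, x * y = y * x := by
    rintro x (rfl | ⟨g, rfl⟩) y (rfl | ⟨h, rfl⟩)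
    · rfl
    · exact (hTa h).symm
    · exact hTa g
    · exact hTT g h
  have hstar : ∀ y ∈ S, star y ∈ S := by
    rintro y (rfl | ⟨h, rfl⟩)
    · rw [ha]; exact mem_insert _ _
    · rw [star_trans]; exact mem_insert_of_mem _ ⟨_, rfl⟩
  have hmem : ∀ x ∈ S, x ∈ (StarAlgebra.adjoin ℂ S).topologicalClosure := fun x hx =>
    StarSubalgebra.le_topologicalClosure _ (StarAlgebra.subset_adjoin ℂ S hx)
  let a' : (StarAlgebra.adjoin ℂ S).topologicalClosure := ⟨a, hmem a (mem_insert _ _)⟩
  let T : Z → (StarAlgebra.adjoin ℂ S).topologicalClosure := fun g =>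
    ⟨trans g, hmem _ (mem_insert_of_mem _ ⟨g, rfl⟩)⟩
  have hT1 : T 1 = 1 := Subtype.ext trans_one
  have hTm : ∀ g h, T (g * h) = T g * T h := fun g h => Subtype.ext (trans_mul g h)
  have hTs : ∀ g, star (T g) = T g⁻¹ := fun g => Subtype.ext (star_trans g)
  have hTc : Continuous fun g => T g * a' :=
    continuous_induced_rng.2 (continuous_trans_mul_conv f)
  have hb : T g₀ * a' - a' ≠ 0 := by
    intro h0
    apply hne
    have := congrArg (Subtype.val) h0
    exact sub_eq_zero.1 this
  obtain ⟨φ, hφc, hφ⟩ := exists_gelfand hcomm hstar _ hb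
  clear_value T a'
  have hφa : φ a' ≠ 0 := by
    intro h0
    apply hφ
    rw [map_sub, map_mul, h0, mul_zero, sub_zero]
  have hφg : φ (T g₀) ≠ 1 := by
    intro h0
    apply hφ
    rw [map_sub, map_mul, h0, one_mul, sub_self]
  have hnorm : ∀ g, φ (T g) * (starRingEnd ℂ) (φ (T g)) = 1 := by
    intro g
    have h1 : (starRingEnd ℂ) (φ (T g)) = φ (T g⁻¹) := by
      rw [← hTs g, map_star]
      rfl
    rw [h1, ← map_mul, ← hTm, mul_inv_cancel, hT1, map_one]
  have hcirc : ∀ g, φ (T g) ∈ Submonoid.unitSphere ℂ := by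
    intro g
    change φ (T g) ∈ Metric.sphere (0 : ℂ) 1
    rw [mem_sphere_zero_iff_norm]
    have := hnorm g
    rw [Complex.mul_conj, Complex.normSq_eq_norm_sq] at this
    have h2 : ‖φ (T g)‖ ^ 2 = 1 := by exact_mod_cast this
    nlinarith [norm_nonneg (φ (T g)), h2]
  let χ : Z →* Circle :=
    { toFun := fun g => ⟨φ (T g), hcirc g⟩
      map_one' := by
        apply Subtype.ext
        change φ (T 1) = 1
        rw [hT1, map_one]
      map_mul' := by
        intro g h
        apply Subtype.ext
        change φ (T (g * h)) = φ (T g) * φ (T h)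
        rw [hTm, map_mul] }
  refine ⟨χ, ?_, ?_⟩
  · have hiso : @Isometry Circle ℂ _ _ Circle.coeHom := fun _ _ => rfl
    rw [hiso.isEmbedding.continuous_iff]
    have heq : (Circle.coeHom ∘ χ : Z → ℂ) = fun g => φ (T g * a') / φ a' := by
      ext1 g
      rw [map_mul, mul_div_cancel_right₀ _ hφa]
      rfl
    rw [heq]
    exact (hφc.comp hTc).div_const _
  · intro h
    apply hφg
    exact congrArg Subtype.val h

end Main

end

end Pool.Agent.MP_47df8f_gt
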