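import Mathlib

/-!
Precompact groups: compact completion, the minimality criterion, metrizability.
-/

set_option autoImplicit false
open Filter Topology Set
open scoped Pointwise Uniformity

namespace Pool.Agent.MP_47df8f_gt

section Completion

variable {G : Type*} [Group G] [TopologicalSpace G] [IsTopologicalGroup G]

/-- Precompact groups have small neighbourhoods uniformly stable under conjugation. -/
theorem exists_conj_subset (hpc : ∀ U ∈ 𝓝 (1 : G), ∃ F : Finset G, ∀ x : G, ∃ g ∈ F, x ∈ g • U)
    {U : Set G} (hU : U ∈ 𝓝 (1 : G)) :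
    ∃ V ∈ 𝓝 (1 : G), ∀ g : G, ∀ v ∈ V, g * v * g⁻¹ ∈ U := by
  obtain ⟨W1, hW1o, hW11, hW1⟩ := exists_open_nhds_one_mul_subset hU
  obtain ⟨W2, hW2o, hW21, hW2⟩ := exists_open_nhds_one_mul_subset (hW1o.mem_nhds hW11)
  let W : Set G := W2 ∩ W2⁻¹
  have hWo : IsOpen W := hW2o.inter hW2o.inv
  have hW1' : (1 : G) ∈ W := ⟨hW21, by simpa using hW21⟩
  have hWi : ∀ w ∈ W, w⁻¹ ∈ W := fun w hw => ⟨by simpa using hw.2, by simpa using hw.1⟩
  obtain ⟨F, hF⟩ := hpc W (hWo.mem_nhds hW1')
  refine ⟨⋂ f ∈ F, (fun v => f⁻¹ * v * f) ⁻¹' W, ?_, ?_⟩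
  · rw [Filter.biInter_finset_mem]
    intro f _
    have hc : Continuous fun v : G => f⁻¹ * v * f := by fun_prop
    apply hc.continuousAt.preimage_mem_nhds
    apply hWo.mem_nhds
    simpa using hW1'
  · intro g v hv
    obtain ⟨f, hfF, w, hw, hfw⟩ := hF g⁻¹
    have hg : g = w⁻¹ * f⁻¹ := by
      have : g⁻¹ = f * w := hfw.symm
      rw [← inv_inv g, this, mul_inv_rev]
    have h1 : f⁻¹ * v * f ∈ W := mem_iInter₂.1 hv f hfF
    have h2 : g * v * g⁻¹ = w⁻¹ * ((f⁻¹ * v * f) * w) := by
      rw [hg]; group
    rw [h2]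
    apply hW1
    refine ⟨w⁻¹, ?_, _, hW2 ⟨_, h1.1, _, hw.1, rfl⟩, rfl⟩
    exact hW2 ⟨w⁻¹, (hWi w hw).1, 1, hW21, mul_one _⟩

/-- The right uniformity of a precompact group makes it a uniform group. -/
theorem isUniformGroup_of_precompact
    (hpc : ∀ U ∈ 𝓝 (1 : G), ∃ F : Finset G, ∀ x : G, ∃ g ∈ F, x ∈ g • U) :
    @IsUniformGroup G (IsTopologicalGroup.rightUniformSpace G) _ := by
  let _ := IsTopologicalGroup.rightUniformSpace G
  constructor
  rw [UniformContinuous, uniformity_eq_comap_nhds_one' G, tendsto_comap_iff,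
    uniformity_prod_eq_prod, tendsto_map'_iff, uniformity_eq_comap_nhds_one' G]
  intro U hU
  obtain ⟨U1, hU1o, hU11, hU1⟩ := exists_open_nhds_one_mul_subset hU
  obtain ⟨V, hV, hVU⟩ := exists_conj_subset hpc (hU1o.mem_nhds hU11)
  have hV' : V⁻¹ ∈ 𝓝 (1 : G) := inv_mem_nhds_one G hV
  rw [mem_map]
  refine mem_of_superset (prod_mem_prod (preimage_mem_comap (hU1o.mem_nhds hU11))
    (preimage_mem_comap hV')) ?_
  rintro ⟨⟨x, x'⟩, ⟨y, y'⟩⟩ ⟨hx, hy⟩
  have hx1 : x' * x⁻¹ ∈ U1 := hx
  have hy1 : (y' * y⁻¹)⁻¹ ∈ V := hy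
  change (x' / y') * (x / y)⁻¹ ∈ U
  have h3 : (x' / y') * (x / y)⁻¹ = (x' * x⁻¹) * ((x * y⁻¹) * (y' * y⁻¹)⁻¹ * (x * y⁻¹)⁻¹) := by
    rw [div_eq_mul_inv, div_eq_mul_inv]
    group
  rw [h3]
  exact hU1 ⟨_, hx1, _, hVU _ _ hy1, rfl⟩

end Completion

section Compactification

universe u

/-- A precompact Hausdorff group embeds densely in a compact Hausdorff group. -/
theorem exists_compactification (G : Type u) [Group G] [TopologicalSpace G] [IsTopologicalGroup G]
    [T2Space G] (hpc : ∀ U ∈ 𝓝 (1 : G), ∃ F : Finset G, ∀ x : G, ∃ g ∈ F, x ∈ g • U) :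
    ∃ (K : Type u) (_ : Group K) (_ : TopologicalSpace K) (_ : IsTopologicalGroup K)
      (_ : CompactSpace K) (_ : T2Space K) (f : G →* K),
      IsEmbedding f ∧ DenseRange f := by
  let _ : UniformSpace G := IsTopologicalGroup.rightUniformSpace G
  have hug : IsUniformGroup G := isUniformGroup_of_precompact hpc
  have huag : IsUniformAddGroup (Additive G) := ⟨hug.uniformContinuous_div⟩
  let C := UniformSpace.Completion (Additive G)
  have htb : TotallyBounded (univ : Set G) := by
    rw [totallyBounded_iff_subset_finite_iUnion_nhds_one]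
    intro U hU
    obtain ⟨F, hF⟩ := hpc U hU
    refine ⟨F, F.finite_toSet, ?_⟩
    intro x _
    obtain ⟨g, hg, hx⟩ := hF x
    exact mem_iUnion₂.2 ⟨g, hg, hx⟩
  have htb' : TotallyBounded (univ : Set (Additive G)) := htb
  have hdense : DenseRange ((↑) : Additive G → C) := UniformSpace.Completion.denseRange_coe
  have htbC : TotallyBounded (univ : Set C) := by
    have h1 := (htb'.image (UniformSpace.Completion.uniformContinuous_coe (Additive G))).closure
    rw [image_univ, hdense.closure_range] at h1
    exact h1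
  have hcomp : CompactSpace C := ⟨isCompact_iff_totallyBounded_isComplete.2
    ⟨htbC, completeSpace_iff_isComplete_univ.1 inferInstance⟩⟩
  have hT2 : T2Space C := inferInstance
  have hT0 : T0Space (Additive G) := (inferInstance : T0Space G)
  have hemb : IsEmbedding ((↑) : Additive G → C) :=
    (UniformSpace.Completion.isUniformEmbedding_coe (Additive G)).isEmbedding
  let f : G →* Multiplicative C :=
    { toFun := fun g => Multiplicative.ofAdd ((Additive.ofMul g : Additive G) : C)
      map_one' := by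
        change Multiplicative.ofAdd (((0 : Additive G)) : C) = 1
        rw [UniformSpace.Completion.coe_zero]
        rfl
      map_mul' := by
        intro a b
        change Multiplicative.ofAdd (((Additive.ofMul a + Additive.ofMul b : Additive G)) : C) = _
        rw [UniformSpace.Completion.coe_add]
        rfl }
  exact ⟨Multiplicative C, inferInstance, inferInstance, inferInstance, hcomp, hT2, f, hemb, hdense⟩

end Compactification

section Criterion

variable {G K : Type*} [Group G] [Group K] [TopologicalSpace K] [IsTopologicalGroup K]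
  [T2Space K]

/-- One direction of the minimality criterion. -/
theorem essential_of_minimal [t : TopologicalSpace G]
    (hmin : ∀ t' : TopologicalSpace G, t ≤ t' → @IsTopologicalGroup G t' _ → @T2Space G t' → t' = t)
    {f : G →* K} (hf : IsEmbedding f) (hd : DenseRange f) (N : Subgroup K) (hN : N.Normal)
    (hNc : IsClosed (N : Set K)) (hne : N ≠ ⊥) : ∃ h ∈ N, h ≠ 1 ∧ h ∈ f.range := by
  by_contra hcon
  push Not at hcon
  have htriv : ∀ g : G, f g ∈ N → g = 1 := by
    intro g hg
    by_contra hg1
    apply hcon (f g) hg _ ⟨g, rfl⟩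
    intro h1
    apply hg1
    apply hf.injective
    rw [h1, map_one]
  let q : G →* K ⧸ N := (QuotientGroup.mk' N).comp f
  have hqc : Continuous q := (QuotientGroup.continuous_mk).comp hf.continuous
  have hqi : Function.Injective q := by
    rw [injective_iff_map_eq_one]
    intro a ha
    apply htriv
    exact (QuotientGroup.eq_one_iff _).1 ha
  have hle : t ≤ TopologicalSpace.induced q inferInstance := continuous_iff_le_induced.1 hqc
  have ht' : TopologicalSpace.induced q inferInstance = t := by
    apply hmin _ hle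
    · exact topologicalGroup_induced q
    · have : IsClosed (N : Set K) := hNc
      exact @T2Space.of_injective_continuous G (K ⧸ N) (TopologicalSpace.induced q inferInstance)
        _ _ q hqi continuous_induced_dom
  obtain ⟨x, hxN, hx1⟩ : ∃ x ∈ N, x ≠ 1 := by
    by_contra hc
    push Not at hc
    apply hne
    rw [Subgroup.eq_bot_iff_forall]
    exact hc
  obtain ⟨U, V, hU, hV, h1U, hxV, hUV⟩ := t2_separation (Ne.symm hx1)
  have hopen : IsOpen[TopologicalSpace.induced q inferInstance] (f ⁻¹' U) := by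
    rw [ht']
    exact hU.preimage hf.continuous
  obtain ⟨W, hWo, hW⟩ := isOpen_induced_iff.1 hopen
  have h1W : (1 : K ⧸ N) ∈ W := by
    have : (1 : G) ∈ q ⁻¹' W := by
      rw [hW, mem_preimage, map_one]
      exact h1U
    rw [mem_preimage, map_one] at this
    exact this
  have hxW : ((x : K) : K ⧸ N) ∈ W := by
    rw [(QuotientGroup.eq_one_iff x).2 hxN]
    exact h1W
  have hopen2 : IsOpen ((fun y : K => (y : K ⧸ N)) ⁻¹' W ∩ V) :=
    (hWo.preimage QuotientGroup.continuous_mk).inter hV
  obtain ⟨g, hg⟩ := hd.exists_mem_open hopen2 ⟨x, hxW, hxV⟩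
  have hgU : f g ∈ U := by
    have : g ∈ q ⁻¹' W := hg.1
    rw [hW] at this
    exact this
  exact (Set.disjoint_left.1 hUV hgU) hg.2

end Criterion

section Metrizable

/-- A `Gδ` point of a compact Hausdorff space has a countable neighbourhood basis. -/
theorem nhds_isCountablyGenerated_of_isGdelta {X : Type*} [TopologicalSpace X] [CompactSpace X]
    [T2Space X] {x : X} (h : IsGδ ({x} : Set X)) : (𝓝 x).IsCountablyGenerated := by
  obtain ⟨f, hf, -, -, -⟩ := exists_continuous_one_zero_of_isCompact_of_isGδ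
    (isCompact_singleton (x := x)) h isClosed_empty (disjoint_empty _)
  have h1 := (f.continuous.isClosedMap).comap_nhds_eq f.continuous 1
  rw [← hf, nhdsSet_singleton] at h1
  rw [← h1]
  infer_instance

theorem metrizable_of_isCountablyGenerated {G : Type*} [Group G] [TopologicalSpace G]
    [IsTopologicalGroup G] [T2Space G] (h : (𝓝 (1 : G)).IsCountablyGenerated) :
    TopologicalSpace.MetrizableSpace G := by
  let _ := IsTopologicalGroup.rightUniformSpace G
  have : (𝓤 G).IsCountablyGenerated := by
    rw [uniformity_eq_comap_nhds_one' G]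
    infer_instance
  exact UniformSpace.metrizableSpace

end Metrizable

end Pool.Agent.MP_47df8f_gt
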