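import Pool.Agent.MP_47df8f_gt.Chain

/-!
Pro-`p` groups: an essential subgroup of countable tightness forces the identity to be `Gδ`.
-/

set_option autoImplicit false
open Filter Topology Set
open scoped Pointwise

namespace Pool.Agent.MP_47df8f_gt

section Good

variable {P : Type*} [CommGroup P] [TopologicalSpace P]

/-- `H` meets every nontrivial closed subgroup, and has countable tightness at the identity. -/
def Good (H : Subgroup P) : Prop :=
  (∀ L : Subgroup P, IsClosed (L : Set P) → L ≠ ⊥ → ∃ h ∈ L, h ≠ 1 ∧ h ∈ H) ∧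
  (∀ A : Set P, A ⊆ H → (1 : P) ∈ closure A → ∃ B ⊆ A, B.Countable ∧ (1 : P) ∈ closure B)

theorem Good.subgroupOf {H : Subgroup P} (hg : Good H) {T : Subgroup P}
    (hT : IsClosed (T : Set P)) : Good (H.subgroupOf T) := by
  constructor
  · intro L hL hne
    obtain ⟨h, hhL, h1, hH⟩ := hg.1 (L.map T.subtype)
      (by
        rw [Subgroup.coe_map]
        exact hT.isClosedEmbedding_subtypeVal.isClosedMap _ hL)
      (by
        intro hb
        apply hne
        rw [Subgroup.map_eq_bot_iff_of_injective _ T.subtype_injective] at hb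
        exact hb)
    obtain ⟨l, hl, rfl⟩ := hhL
    refine ⟨l, hl, ?_, ?_⟩
    · rintro rfl; exact h1 (map_one _)
    · exact Subgroup.mem_subgroupOf.2 hH
  · intro A hA h1
    have h1' : (1 : P) ∈ closure ((↑) '' A : Set P) := by
      have := image_closure_subset_closure_image (f := ((↑) : T → P)) continuous_subtype_val
        (s := A)
      exact this ⟨1, h1, rfl⟩
    obtain ⟨B, hBA, hBc, hB1⟩ := hg.2 ((↑) '' A : Set P) (by
      rintro _ ⟨a, ha, rfl⟩
      exact Subgroup.mem_subgroupOf.1 (hA ha)) h1'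
    obtain ⟨B', hB'A, rfl⟩ := subset_image_iff.1 hBA
    refine ⟨B', hB'A, ?_, ?_⟩
    · exact countable_of_injective_of_countable_image Subtype.val_injective.injOn hBc
    · rw [Topology.IsEmbedding.subtypeVal.closure_eq_preimage_closure_image]
      exact hB1

theorem exists_open_of_isGdelta_subgroup {N : Subgroup P} (h : IsGδ ({1} : Set N)) :
    ∃ O : ℕ → Set P, (∀ n, IsOpen (O n)) ∧ (∀ n, (1 : P) ∈ O n) ∧
      ∀ x ∈ N, (∀ n, x ∈ O n) → x = 1 := by
  obtain ⟨U, hUo, hU⟩ := h.eq_iInter_nat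
  choose O hOo hO using fun n => isOpen_induced_iff.1 (hUo n)
  refine ⟨O, hOo, ?_, ?_⟩
  · intro n
    have : (1 : N) ∈ ⋂ n, U n := by rw [← hU]; rfl
    have := mem_iInter.1 this n
    rw [← hO n] at this
    exact this
  · intro x hxN hx
    have : (⟨x, hxN⟩ : N) ∈ ({1} : Set N) := by
      rw [hU, mem_iInter]
      intro n
      rw [← hO n]
      exact hx n
    exact congrArg Subtype.val this

theorem isGdelta_one_of_subgroup {N : Subgroup P} (hN : IsGδ (N : Set P))
    (h : IsGδ ({1} : Set N)) : IsGδ ({1} : Set P) := by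
  obtain ⟨O, hOo, hO1, hO⟩ := exists_open_of_isGdelta_subgroup h
  have : ({1} : Set P) = (N : Set P) ∩ ⋂ n, O n := by
    apply Subset.antisymm
    · rintro _ rfl
      exact ⟨N.one_mem, mem_iInter.2 hO1⟩
    · rintro x ⟨hx, hx'⟩
      exact hO x hx (mem_iInter.1 hx')
  rw [this]
  exact hN.inter (IsGδ.iInter fun n => (hOo n).isGδ)

end Good

section ProP

variable {P : Type*} [CommGroup P] [TopologicalSpace P]

variable (P) in
/-- The pro-`p` property: small open subgroups with quotient of finite `p`-power exponent. -/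
def ProP (p : ℕ) : Prop :=
  ∀ U ∈ 𝓝 (1 : P), ∃ V : Subgroup P, IsOpen (V : Set P) ∧ (V : Set P) ⊆ U ∧
    ∃ m : ℕ, ∀ x : P, x ^ (p ^ m) ∈ V

theorem ProP.subgroup {p : ℕ} (h : ProP P p) (N : Subgroup P) : ProP N p := by
  intro U hU
  rw [nhds_subtype, mem_comap] at hU
  obtain ⟨W, hW, hWU⟩ := hU
  obtain ⟨V, hVo, hVW, m, hm⟩ := h W hW
  refine ⟨V.subgroupOf N, ?_, ?_, m, ?_⟩
  · exact hVo.preimage continuous_subtype_val
  · intro x hx
    exact hWU (hVW hx)
  · intro x
    exact Subgroup.mem_subgroupOf.2 (by simpa using hm (x : P))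

variable [IsTopologicalGroup P] [CompactSpace P] [T2Space P]

omit [TopologicalSpace P] [IsTopologicalGroup P] [CompactSpace P] [T2Space P] in
theorem pow_ppow_eq_one {p : ℕ} (htf : ∀ x : P, x ^ p = 1 → x = 1) (n : ℕ) :
    ∀ x : P, x ^ (p ^ n) = 1 → x = 1 := by
  induction n with
  | zero => intro x hx; simpa using hx
  | succ n ih =>
    intro x hx
    apply htf
    apply ih
    rw [← pow_mul, mul_comm, ← pow_succ, hx]

omit [TopologicalSpace P] [IsTopologicalGroup P] [CompactSpace P] [T2Space P] in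
theorem mem_of_zpow_mem {p m : ℕ} (hp : p.Prime) {V : Subgroup P} {y : P}
    (hm : y ^ (p ^ m) ∈ V) {k : ℤ} (hk : ¬ (p : ℤ) ∣ k) (hy : y ^ k ∈ V) : y ∈ V := by
  have hc : IsCoprime k ((p : ℤ) ^ m) := by
    apply IsCoprime.pow_right
    apply IsCoprime.symm
    exact (Nat.prime_iff_prime_int.1 hp).coprime_iff_not_dvd.2 hk
  obtain ⟨a, b, hab⟩ := hc
  have : y = (y ^ k) ^ a * (y ^ (p ^ m)) ^ b := by
    rw [← zpow_mul, ← zpow_natCast, ← zpow_mul, ← zpow_add]
    push_cast
    rw [mul_comm k a, mul_comm ((p : ℤ) ^ m) b, hab, zpow_one]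
  rw [this]
  exact V.mul_mem (V.zpow_mem hy a) (V.zpow_mem hm b)

/-- The torsion free case. -/
theorem isGdelta_one_of_proP_of_torsionFree {p : ℕ} (hp : p.Prime) (hP : ProP P p)
    (htf : ∀ x : P, x ^ p = 1 → x = 1) {H : Subgroup P} (hg : Good H) :
    IsGδ ({1} : Set P) := by
  by_contra h
  obtain ⟨Y, hYM, hYB⟩ := exists_chain_set h
  have hY1 : ∀ y ∈ Y, y ≠ 1 := by
    rintro y hy rfl
    exact hYB {1} (singleton_subset_iff.2 hy) (countable_singleton _) (subset_closure rfl)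
  -- an element of `H` in the closure of the powers of `y`
  have hex : ∀ y ∈ Y, ∃ h ∈ H, h ∈ (Subgroup.zpowers y).topologicalClosure ∧
      ∃ n : ℕ, h ∈ closure {z : P | ∃ k : ℤ, ¬ (p : ℤ) ∣ k ∧ z = y ^ ((p : ℤ) ^ n * k)} := by
    intro y hy
    obtain ⟨h, hhL, h1, hH⟩ := hg.1 (Subgroup.zpowers y).topologicalClosure
      (Subgroup.isClosed_topologicalClosure _) (by
        intro hb
        have : y ∈ (Subgroup.zpowers y).topologicalClosure :=
          Subgroup.le_topologicalClosure _ (Subgroup.mem_zpowers y)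
        rw [hb] at this
        exact hY1 y hy (Subgroup.mem_bot.1 this))
    refine ⟨h, hH, hhL, ?_⟩
    by_contra hcon
    push Not at hcon
    obtain ⟨V, hVo, hVU, m, hm⟩ := hP {h}ᶜ (isClosed_singleton.isOpen_compl.mem_nhds
      (by simpa using h1.symm))
    have hhV : h ∉ V := fun hc => hVU hc rfl
    let O : Set P := (h • (V : Set P)) ∩ ⋂ n ∈ Finset.range m,
      (closure {z : P | ∃ k : ℤ, ¬ (p : ℤ) ∣ k ∧ z = y ^ ((p : ℤ) ^ n * k)})ᶜ
    have hOo : IsOpen O := (hVo.smul h).inter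
      (isOpen_biInter_finset fun n _ => isClosed_closure.isOpen_compl)
    have hhO : h ∈ O := ⟨⟨1, V.one_mem, by simp⟩, mem_iInter₂.2 fun n _ => hcon n⟩
    have hcl : h ∈ closure (Subgroup.zpowers y : Set P) := hhL
    obtain ⟨w, ⟨⟨v, hv, hvw⟩, hwF⟩, hw⟩ := mem_closure_iff.1 hcl O hOo hhO
    obtain ⟨j, rfl⟩ := Subgroup.mem_zpowers_iff.1 hw
    simp only [smul_eq_mul] at hvw
    have hjV : y ^ j ∉ V := by
      intro hjV
      apply hhV
      have : h = y ^ j * v⁻¹ := by rw [← hvw, mul_inv_cancel_right]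
      rw [this]
      exact V.mul_mem hjV (V.inv_mem hv)
    have hj0 : j ≠ 0 := by
      rintro rfl
      apply hjV
      rw [zpow_zero]; exact V.one_mem
    have hfin : FiniteMultiplicity (p : ℤ) j := by
      rw [Int.finiteMultiplicity_iff]
      exact ⟨by simpa using hp.one_lt.ne', hj0⟩
    obtain ⟨k, hk, hpk⟩ := hfin.exists_eq_pow_mul_and_not_dvd
    set n := multiplicity (p : ℤ) j with hn
    by_cases hnm : n < m
    · exact (mem_iInter₂.1 hwF n (Finset.mem_range.2 hnm)) (subset_closure ⟨k, hpk, by rw [← hk]⟩)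
    · apply hjV
      push Not at hnm
      have hj : y ^ j = (y ^ (p ^ m)) ^ ((p : ℤ) ^ (n - m) * k) := by
        rw [← zpow_natCast, ← zpow_mul, hk]
        congr 1
        push_cast
        rw [← mul_assoc, ← pow_add, Nat.add_sub_cancel' hnm]
      rw [hj]
      exact V.zpow_mem (hm y) _
  choose! f hfH hfL n hn using hex
  -- some piece accumulates at the identity
  have hacc : ∃ N : ℕ, (1 : P) ∈ closure (f '' {y ∈ Y | n y = N}) := by
    by_contra hcon
    push Not at hcon
    obtain ⟨M, hMc, hMG, hMU⟩ := exists_closed_isGdelta_subgroup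
      (fun N => (closure (f '' {y ∈ Y | n y = N}))ᶜ)
      (fun N => isClosed_closure.isOpen_compl.mem_nhds (hcon N))
    obtain ⟨y, hyY, hyM⟩ := hYM M hMc hMG
    have hle : (Subgroup.zpowers y).topologicalClosure ≤ M :=
      Subgroup.topologicalClosure_minimal _ (by
        rw [Subgroup.zpowers_le]; exact hyM) hMc
    exact hMU (n y) (hle (hfL y hyY)) (subset_closure ⟨y, ⟨hyY, rfl⟩, rfl⟩)
  obtain ⟨N, hN⟩ := hacc
  obtain ⟨B, hBA, hBc, hB1⟩ := hg.2 _ (by
    rintro _ ⟨y, ⟨hyY, -⟩, rfl⟩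
    exact hfH y hyY) hN
  obtain ⟨B', hB'Y, hB'c, hB'⟩ : ∃ B' ⊆ {y ∈ Y | n y = N}, B'.Countable ∧ f '' B' = B := by
    have hBA' : ∀ b ∈ B, ∃ y ∈ {y ∈ Y | n y = N}, f y = b := fun b hb => hBA hb
    choose! g hg1 hg2 using hBA'
    refine ⟨g '' B, ?_, hBc.image g, ?_⟩
    · rintro _ ⟨b, hb, rfl⟩; exact hg1 b hb
    · ext b
      constructor
      · rintro ⟨_, ⟨c, hc, rfl⟩, rfl⟩
        rw [hg2 c hc]; exact hc
      · intro hb
        exact ⟨g b, ⟨b, hb, rfl⟩, hg2 b hb⟩
  have h1B' : (1 : P) ∉ closure B' := hYB B' (fun y hy => (hB'Y hy).1) hB'c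
  obtain ⟨V, hVo, hVU, m, hm⟩ := hP (closure B')ᶜ (isClosed_closure.isOpen_compl.mem_nhds h1B')
  let D : Set P := (fun x : P => x ^ (p ^ N)) '' (V : Set P)ᶜ
  have hD : IsClosed D := (hVo.isClosed_compl.isCompact.image (by fun_prop)).isClosed
  have hBD : B ⊆ D := by
    rw [← hB']
    rintro _ ⟨y, hy, rfl⟩
    have hyV : y ∉ V := fun hc => hVU hc (subset_closure hy)
    have hnN : n y = N := (hB'Y hy).2
    have hyn := hn y (hB'Y hy).1
    rw [hnN] at hyn
    refine closure_minimal ?_ hD hyn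
    rintro _ ⟨k, hk, rfl⟩
    refine ⟨y ^ k, fun hc => hyV (mem_of_zpow_mem hp (hm y) hk hc), ?_⟩
    simp only
    rw [← zpow_natCast, ← zpow_mul, mul_comm]
    push_cast
    rfl
  obtain ⟨x, hxV, hx1⟩ := (closure_minimal hBD hD) hB1
  apply hxV
  rw [pow_ppow_eq_one htf N x hx1]
  exact V.one_mem

/-- The general pro-`p` case. -/
theorem isGdelta_one_of_proP {p : ℕ} (hp : p.Prime) (hP : ProP P p)
    {H : Subgroup P} (hg : Good H) : IsGδ ({1} : Set P) := by
  let T : Subgroup P := (powMonoidHom p : P →* P).ker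
  have hTc : IsClosed (T : Set P) := by
    have : (T : Set P) = (fun x : P => x ^ p) ⁻¹' {1} := by
      ext x; rfl
    rw [this]
    exact isClosed_singleton.preimage (by fun_prop)
  have hTmem : ∀ x, x ∈ T ↔ x ^ p = 1 := fun x => Iff.rfl
  have hTH : T ≤ H := by
    intro x hx
    by_cases hx1 : x = 1
    · rw [hx1]; exact H.one_mem
    have hxp : x ^ p = 1 := (hTmem x).1 hx
    have hfin : (Subgroup.zpowers x : Set P).Finite := by
      have : IsOfFinOrder x := isOfFinOrder_iff_pow_eq_one.2 ⟨p, hp.pos, hxp⟩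
      exact this.finite_zpowers
    obtain ⟨h, hhL, h1, hH⟩ := hg.1 (Subgroup.zpowers x) hfin.isClosed (by
      rw [Ne, Subgroup.zpowers_eq_bot]; exact hx1)
    obtain ⟨k, rfl⟩ := Subgroup.mem_zpowers_iff.1 hhL
    have hk : ¬ (p : ℤ) ∣ k := by
      rintro ⟨c, rfl⟩
      apply h1
      rw [zpow_mul, zpow_natCast, hxp, one_zpow]
    exact mem_of_zpow_mem (m := 1) hp (by rw [pow_one, hxp]; exact H.one_mem) hk hH
  have hTG : IsGδ ({1} : Set T) := by
    by_contra hcon
    have : CompactSpace T := isCompact_iff_compactSpace.1 hTc.isCompact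
    obtain ⟨Y, hYM, hYB⟩ := exists_chain_set hcon
    have h1Y : (1 : T) ∈ closure Y := by
      by_contra h1
      obtain ⟨M, hMc, hMG, hMU⟩ := exists_closed_isGdelta_subgroup
        (fun _ => (closure Y)ᶜ) (fun _ => isClosed_closure.isOpen_compl.mem_nhds h1)
      obtain ⟨y, hyY, hyM⟩ := hYM M hMc hMG
      exact hMU 0 hyM (subset_closure hyY)
    obtain ⟨B, hBY, hBc, hB1⟩ := (hg.subgroupOf hTc).2 Y (fun y _ =>
      Subgroup.mem_subgroupOf.2 (hTH y.2)) h1Y
    exact hYB B hBY hBc hB1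
  obtain ⟨O, hOo, hO1, hO⟩ := exists_open_of_isGdelta_subgroup hTG
  obtain ⟨N, hNc, hNG, hNO⟩ := exists_closed_isGdelta_subgroup O
    (fun n => (hOo n).mem_nhds (hO1 n))
  have : CompactSpace N := isCompact_iff_compactSpace.1 hNc.isCompact
  apply isGdelta_one_of_subgroup hNG
  apply isGdelta_one_of_proP_of_torsionFree hp (hP.subgroup N) _ (hg.subgroupOf hNc)
  intro x hx
  apply Subtype.ext
  apply hO x.1
  · rw [hTmem]
    exact congrArg Subtype.val hx
  · intro n; exact hNO n x.2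

end ProP

end Pool.Agent.MP_47df8f_gt
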