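import Pool.Agent.MP_47df8f_gt.Chars
import Pool.Agent.MP_47df8f_gt.ProP
import Pool.Agent.MP_47df8f_gt.Algebra

/-!
A compact commutative group whose identity is not `Gδ` has a closed pro-`p` subgroup with the same
property, for some prime `p`.
-/

set_option autoImplicit false
open MeasureTheory Filter Topology Set
open scoped ENNReal

namespace Pool.Agent.MP_47df8f_gt

noncomputable section

section Dual

variable {Z : Type*} [CommGroup Z] [TopologicalSpace Z] [IsTopologicalGroup Z] [CompactSpace Z]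
  [T2Space Z]

variable (Z) in
/-- The dual group, written additively. -/
abbrev XX : Type _ := Additive (Z →ₜ* Circle)

/-- Evaluation. -/
def ev (χ : XX Z) (z : Z) : Circle := χ.toMul z

omit [IsTopologicalGroup Z] [CompactSpace Z] [T2Space Z] in
theorem ev_add (χ ψ : XX Z) (z : Z) : ev (χ + ψ) z = ev χ z * ev ψ z := rfl

omit [IsTopologicalGroup Z] [CompactSpace Z] [T2Space Z] in
theorem ev_zero (z : Z) : ev (0 : XX Z) z = 1 := rfl

omit [IsTopologicalGroup Z] [CompactSpace Z] [T2Space Z] in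
theorem ev_neg (χ : XX Z) (z : Z) : ev (-χ) z = (ev χ z)⁻¹ := rfl

omit [IsTopologicalGroup Z] [CompactSpace Z] [T2Space Z] in
theorem ev_nsmul (n : ℕ) (χ : XX Z) (z : Z) : ev (n • χ) z = ev χ z ^ n := by
  induction n with
  | zero => simp [ev_zero]
  | succ n ih => rw [succ_nsmul, ev_add, ih, pow_succ]

omit [IsTopologicalGroup Z] [CompactSpace Z] [T2Space Z] in
theorem ev_mul (χ : XX Z) (z w : Z) : ev χ (z * w) = ev χ z * ev χ w :=
  map_mul χ.toMul z w

omit [IsTopologicalGroup Z] [CompactSpace Z] [T2Space Z] in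
theorem ev_one (χ : XX Z) : ev χ 1 = 1 := map_one χ.toMul

omit [IsTopologicalGroup Z] [CompactSpace Z] [T2Space Z] in
theorem ev_inv (χ : XX Z) (z : Z) : ev χ z⁻¹ = (ev χ z)⁻¹ := map_inv χ.toMul z

omit [IsTopologicalGroup Z] [CompactSpace Z] [T2Space Z] in
theorem continuous_ev (χ : XX Z) : Continuous (ev χ) := χ.toMul.continuous_toFun

omit [IsTopologicalGroup Z] [CompactSpace Z] [T2Space Z] in
theorem XX_ext {χ ψ : XX Z} (h : ∀ z, ev χ z = ev ψ z) : χ = ψ :=
  ContinuousMonoidHom.ext h

theorem exists_ev_ne {z : Z} (hz : z ≠ 1) : ∃ χ : XX Z, ev χ z ≠ 1 := by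
  obtain ⟨χ, hχ, h⟩ := exists_char_ne hz
  exact ⟨Additive.ofMul ⟨χ, hχ⟩, h⟩

theorem continuous_circle_coe : Continuous (fun c : Circle => (c : ℂ)) := by
  have hiso : @Isometry Circle ℂ _ _ Circle.coeHom := fun _ _ => rfl
  exact hiso.continuous

/-- The character as a complex valued continuous function. -/
def toC (χ : XX Z) : C(Z, ℂ) := ⟨fun z => (ev χ z : ℂ), continuous_circle_coe.comp (continuous_ev χ)⟩

omit [IsTopologicalGroup Z] [CompactSpace Z] [T2Space Z] in
theorem toC_apply (χ : XX Z) (z : Z) : toC χ z = (ev χ z : ℂ) := rfl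

/-- Orthogonality. -/
theorem integral_toC_eq_zero [MeasurableSpace Z] [BorelSpace Z] {χ : XX Z} (h : χ ≠ 0) :
    ∫ z, toC χ z ∂(Measure.haar : Measure Z) = 0 := by
  obtain ⟨g, hg⟩ : ∃ g, ev χ g ≠ 1 := by
    by_contra hcon
    push Not at hcon
    exact h (XX_ext hcon)
  have h1 : ∫ z, toC χ (g * z) ∂(Measure.haar : Measure Z) =
      ∫ z, toC χ z ∂(Measure.haar : Measure Z) := integral_mul_left_eq_self _ g
  have h2 : ∫ z, toC χ (g * z) ∂(Measure.haar : Measure Z) =
      (ev χ g : ℂ) * ∫ z, toC χ z ∂(Measure.haar : Measure Z) := by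
    rw [← integral_const_mul]
    congr 1
    ext1 z
    rw [toC_apply, toC_apply, ev_mul, Circle.coe_mul]
  rw [h2] at h1
  have h3 : ((ev χ g : ℂ) - 1) * ∫ z, toC χ z ∂(Measure.haar : Measure Z) = 0 := by
    rw [sub_mul, h1, one_mul, sub_self]
  rcases mul_eq_zero.1 h3 with h4 | h4
  · exfalso
    apply hg
    rw [sub_eq_zero] at h4
    exact Circle.ext h4
  · exact h4

/-- A subgroup of the dual which separates points is everything. -/
theorem eq_top_of_separates {E : AddSubgroup (XX Z)}
    (hE : ∀ z : Z, (∀ χ ∈ E, ev χ z = 1) → z = 1) : E = ⊤ := by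
  rw [AddSubgroup.eq_top_iff']
  intro χ₀
  by_contra hχ₀
  let _ : MeasurableSpace Z := borel Z
  have : BorelSpace Z := ⟨rfl⟩
  let S : Set C(Z, ℂ) := toC '' (E : Set (XX Z))
  let 𝒜 : StarSubalgebra ℂ C(Z, ℂ) := StarAlgebra.adjoin ℂ S
  have hstar : star S ⊆ S := by
    rintro F hF
    rw [Set.mem_star] at hF
    obtain ⟨χ, hχ, hF⟩ := hF
    refine ⟨-χ, E.neg_mem hχ, ?_⟩
    have : F = star (toC χ) := by rw [hF, star_star]
    rw [this]
    ext z
    rw [toC_apply, ev_neg, Circle.coe_inv_eq_conj]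
    rfl
  let M : Submonoid C(Z, ℂ) :=
    { carrier := S
      mul_mem' := by
        rintro _ _ ⟨χ, hχ, rfl⟩ ⟨ψ, hψ, rfl⟩
        refine ⟨χ + ψ, E.add_mem hχ hψ, ?_⟩
        ext z
        rw [ContinuousMap.mul_apply, toC_apply, toC_apply, toC_apply, ev_add, Circle.coe_mul]
      one_mem' := by
        refine ⟨0, E.zero_mem, ?_⟩
        ext z
        rw [toC_apply, ev_zero, Circle.coe_one]
        rfl }
  have hcl : (Submonoid.closure (S ∪ star S) : Set C(Z, ℂ)) ⊆ S := by
    have : Submonoid.closure (S ∪ star S) ≤ M :=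
      Submonoid.closure_le.2 (union_subset (fun x hx => hx) hstar)
    exact this
  have hsep : 𝒜.SeparatesPoints := by
    intro x y hxy
    by_contra hcon
    push Not at hcon
    apply hxy
    have h1 : x * y⁻¹ = 1 := by
      apply hE
      intro χ hχ
      have h2 : toC χ x = toC χ y := by
        apply hcon (toC χ)
        exact ⟨toC χ, StarAlgebra.subset_adjoin ℂ S ⟨χ, hχ, rfl⟩, rfl⟩
      have h3 : ev χ x = ev χ y := Circle.ext h2
      rw [ev_mul, ev_inv, h3, mul_inv_cancel]
    exact mul_inv_eq_one.1 h1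
  have htop : 𝒜.topologicalClosure = ⊤ :=
    ContinuousMap.starSubalgebra_topologicalClosure_eq_top_of_separatesPoints 𝒜 hsep
  let Λ : C(Z, ℂ) → ℂ := fun F => ∫ z, toC (-χ₀) z * F z ∂(Measure.haar : Measure Z)
  have hint : ∀ F : C(Z, ℂ), Integrable (fun z => toC (-χ₀) z * F z) (Measure.haar : Measure Z) :=
    fun F => (by fun_prop : Continuous fun z => toC (-χ₀) z * F z).integrable_of_hasCompactSupport
      (HasCompactSupport.of_compactSpace _)
  have hΛS : ∀ F ∈ S, Λ F = 0 := by
    rintro _ ⟨χ, hχ, rfl⟩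
    have : (fun z => toC (-χ₀) z * toC χ z) = fun z => toC (χ - χ₀) z := by
      ext1 z
      rw [toC_apply, toC_apply, toC_apply, ← Circle.coe_mul, ← ev_add, neg_add_eq_sub]
    change ∫ z, toC (-χ₀) z * toC χ z ∂(Measure.haar : Measure Z) = 0
    rw [this]
    apply integral_toC_eq_zero
    intro h0
    apply hχ₀
    rw [← sub_eq_zero.1 h0]
    exact hχ
  let ΛL : C(Z, ℂ) →ₗ[ℂ] ℂ :=
    { toFun := Λ
      map_add' := by
        intro F G
        change ∫ z, toC (-χ₀) z * (F + G) z ∂(Measure.haar : Measure Z) = _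
        rw [← integral_add (hint F) (hint G)]
        congr 1
        ext1 z
        rw [ContinuousMap.add_apply, mul_add]
      map_smul' := by
        intro c F
        change ∫ z, toC (-χ₀) z * (c • F) z ∂(Measure.haar : Measure Z) = c • ∫ z, _ ∂_
        rw [← integral_smul]
        congr 1
        ext1 z
        rw [ContinuousMap.smul_apply, smul_eq_mul, smul_eq_mul]
        ring }
  have hΛA : ∀ F ∈ 𝒜, Λ F = 0 := by
    intro F hF
    have h1 : F ∈ Submodule.span ℂ (Submonoid.closure (S ∪ star S) : Set C(Z, ℂ)) := by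
      rw [← StarAlgebra.adjoin_eq_span]
      exact hF
    have h2 : Submodule.span ℂ (Submonoid.closure (S ∪ star S) : Set C(Z, ℂ)) ≤ LinearMap.ker ΛL := by
      rw [Submodule.span_le]
      intro G hG
      exact hΛS G (hcl hG)
    exact h2 h1
  have hΛc : Continuous Λ := by
    have : Continuous fun F : C(Z, ℂ) => ∫ z, (toC (-χ₀) * F) z ∂(Measure.haar : Measure Z) := by
      have h1 : Continuous fun F : C(Z, ℂ) => toC (-χ₀) * F := by fun_prop
      have h2 : Continuous fun F : C(Z, ℂ) => ∫ z, F z ∂(Measure.haar : Measure Z) := by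
        have hL : LipschitzWith ((Measure.haar : Measure Z).real univ).toNNReal
            (fun F : C(Z, ℂ) => ∫ z, F z ∂(Measure.haar : Measure Z)) := by
          apply LipschitzWith.of_dist_le_mul
          intro F G
          rw [dist_eq_norm, dist_eq_norm, Real.coe_toNNReal _ (by positivity), mul_comm,
            ← integral_sub (F.continuous.integrable_of_hasCompactSupport
              (HasCompactSupport.of_compactSpace _)) (G.continuous.integrable_of_hasCompactSupport
              (HasCompactSupport.of_compactSpace _))]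
          apply norm_integral_le_of_norm_le_const
          filter_upwards with z
          exact (F - G).norm_coe_le_norm z
        exact hL.continuous
      exact h2.comp h1
    exact this
  have hall : ∀ F : C(Z, ℂ), Λ F = 0 := by
    intro F
    have hF : F ∈ closure (𝒜 : Set C(Z, ℂ)) := by
      have : F ∈ 𝒜.topologicalClosure := by rw [htop]; exact StarSubalgebra.mem_top
      exact this
    have : closure (𝒜 : Set C(Z, ℂ)) ⊆ Λ ⁻¹' {0} :=
      closure_minimal (fun F hF => hΛA F hF) (isClosed_singleton.preimage hΛc)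
    exact this hF
  have h0 := hall (toC χ₀)
  have h1 : Λ (toC χ₀) = ((Measure.haar : Measure Z).real univ : ℂ) := by
    have : (fun z => toC (-χ₀) z * toC χ₀ z) = fun _ => (1 : ℂ) := by
      ext1 z
      rw [toC_apply, toC_apply, ← Circle.coe_mul, ← ev_add, neg_add_cancel, ev_zero,
        Circle.coe_one]
    change ∫ z, toC (-χ₀) z * toC χ₀ z ∂(Measure.haar : Measure Z) = _
    rw [this, integral_const]
    simp
  rw [h1] at h0
  have h2 : (Measure.haar : Measure Z).real univ ≠ 0 := by
    rw [Measure.real, ENNReal.toReal_ne_zero]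
    exact ⟨(isOpen_univ.measure_pos _ univ_nonempty).ne', measure_ne_top _ _⟩
  exact h2 (by exact_mod_cast h0)

/-- The annihilator of a subgroup of the dual. -/
def annih (E : AddSubgroup (XX Z)) : Subgroup Z where
  carrier := {z | ∀ χ ∈ E, ev χ z = 1}
  mul_mem' := by
    intro a b ha hb χ hχ
    rw [ev_mul, ha χ hχ, hb χ hχ, one_mul]
  one_mem' := fun χ _ => ev_one χ
  inv_mem' := by
    intro a ha χ hχ
    rw [ev_inv, ha χ hχ, inv_one]

omit [IsTopologicalGroup Z] [CompactSpace Z] [T2Space Z] in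
theorem mem_annih {E : AddSubgroup (XX Z)} {z : Z} : z ∈ annih E ↔ ∀ χ ∈ E, ev χ z = 1 := Iff.rfl

omit [IsTopologicalGroup Z] [CompactSpace Z] [T2Space Z] in
theorem isClosed_annih (E : AddSubgroup (XX Z)) : IsClosed (annih E : Set Z) := by
  have : (annih E : Set Z) = ⋂ χ ∈ E, (ev χ) ⁻¹' {1} := by
    ext z
    simp only [SetLike.mem_coe, mem_annih, mem_iInter, mem_preimage, mem_singleton_iff]
  rw [this]
  exact isClosed_biInter fun χ _ => isClosed_singleton.preimage (continuous_ev χ)

/-- Finitely many characters suffice to get into an open neighbourhood of the identity. -/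
theorem exists_finite_chars {P : Subgroup Z} (hP : IsClosed (P : Set Z)) {O : Set Z}
    (hO : IsOpen O) (h1 : (1 : Z) ∈ O) :
    ∃ F : Finset (XX Z), ∀ z ∈ P, (∀ χ ∈ F, ev χ z = 1) → z ∈ O := by
  have hK : IsCompact ((P : Set Z) ∩ Oᶜ) := (hP.inter hO.isClosed_compl).isCompact
  obtain ⟨F, hF⟩ := hK.elim_finite_subcover (fun χ : XX Z => {z | ev χ z ≠ 1})
    (fun χ => isOpen_ne.preimage (continuous_ev χ)) (by
      rintro z ⟨-, hz⟩
      obtain ⟨χ, hχ⟩ := exists_ev_ne (z := z) (by rintro rfl; exact hz h1)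
      exact mem_iUnion.2 ⟨χ, hχ⟩)
  refine ⟨F, ?_⟩
  intro z hzP hz
  by_contra hzO
  have := hF ⟨hzP, hzO⟩
  rw [mem_iUnion₂] at this
  obtain ⟨χ, hχF, hχ⟩ := this
  exact hχ (hz χ hχF)

theorem finite_circle_roots {k : ℕ} (hk : k ≠ 0) : {c : Circle | c ^ k = 1}.Finite := by
  have h1 : {z : ℂ | z ^ k = 1}.Finite := by
    have : {z : ℂ | z ^ k = 1} ⊆ (Polynomial.nthRoots k (1 : ℂ)).toFinset := by
      intro z hz
      rw [Finset.mem_coe, Multiset.mem_toFinset, Polynomial.mem_nthRoots (Nat.pos_of_ne_zero hk)]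
      exact hz
    exact (Finset.finite_toSet _).subset this
  apply Finite.of_finite_image (f := fun c : Circle => (c : ℂ)) _ Circle.coe_injective.injOn
  apply h1.subset
  rintro _ ⟨c, hc, rfl⟩
  have hc' : c ^ k = 1 := hc
  change (c : ℂ) ^ k = 1
  rw [← Circle.coe_pow, hc', Circle.coe_one]

/-- If every character of a `p`-power multiple lies in `E`, the annihilator of `E` is pro-`p`. -/
theorem proP_annih {p : ℕ} (hp : p.Prime) {E : AddSubgroup (XX Z)}
    (hE : ∀ χ : XX Z, ∃ n : ℕ, (p ^ n) • χ ∈ E) : ProP (annih E) p := by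
  classical
  intro U hU
  rw [nhds_subtype, mem_comap] at hU
  obtain ⟨W, hW, hWU⟩ := hU
  obtain ⟨O, hOW, hO, h1⟩ := mem_nhds_iff.1 hW
  obtain ⟨F, hF⟩ := exists_finite_chars (isClosed_annih E) hO h1
  choose n hn using hE
  let V : Subgroup (annih E) := (annih (AddSubgroup.closure (F : Set (XX Z)))).subgroupOf (annih E)
  have hV : ∀ x : annih E, x ∈ V ↔ ∀ χ ∈ F, ev χ (x : Z) = 1 := by
    intro x
    rw [Subgroup.mem_subgroupOf, mem_annih]
    constructor
    · intro h χ hχ
      exact h χ (AddSubgroup.subset_closure hχ)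
    · intro h χ hχ
      induction hχ using AddSubgroup.closure_induction with
      | mem χ hχ => exact h χ hχ
      | zero => exact ev_zero _
      | add χ ψ _ _ h1 h2 => rw [ev_add, h1, h2, one_mul]
      | neg χ _ h1 => rw [ev_neg, h1, inv_one]
  have hpow : ∀ χ : XX Z, ∀ x : annih E, ev χ (x : Z) ^ (p ^ n χ) = 1 := by
    intro χ x
    rw [← ev_nsmul]
    exact x.2 _ (hn χ)
  refine ⟨V, ?_, ?_, ∑ χ ∈ F, n χ, ?_⟩
  · have hset : (V : Set (annih E)) = ⋂ χ ∈ F, (fun x : annih E => ev χ (x : Z)) ⁻¹'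
        ({c : Circle | c ^ (p ^ n χ) = 1} \ {1})ᶜ := by
      ext x
      rw [SetLike.mem_coe, hV, mem_iInter₂]
      constructor
      · intro h χ hχ hc
        exact hc.2 (h χ hχ)
      · intro h χ hχ
        by_contra hne
        exact h χ hχ ⟨hpow χ x, hne⟩
    rw [hset]
    apply isOpen_biInter_finset
    intro χ _
    apply IsOpen.preimage ((continuous_ev χ).comp continuous_subtype_val)
    have hcl := ((finite_circle_roots (pow_ne_zero (n χ) hp.ne_zero)).subset
      (sdiff_subset (t := {1}))).isClosed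
    exact hcl.isOpen_compl
  · intro x hx
    exact hWU (hOW (hF x.1 x.2 ((hV x).1 hx)))
  · intro x
    rw [hV]
    intro χ hχ
    have h1 : n χ ≤ ∑ χ ∈ F, n χ := Finset.single_le_sum (fun _ _ => Nat.zero_le _) hχ
    have h2 : ev χ ((x ^ p ^ ∑ χ ∈ F, n χ : annih E) : Z) =
        (ev χ (x : Z) ^ (p ^ n χ)) ^ (p ^ (∑ χ ∈ F, n χ - n χ)) := by
      rw [← pow_mul, ← pow_add, Nat.add_sub_cancel' h1]
      exact map_pow χ.toMul (x : Z) _
    rw [h2, hpow, one_pow]

theorem countable_addSubgroup_closure {A : Type*} [AddCommGroup A] {s : Set A} (hs : s.Countable) :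
    (AddSubgroup.closure s : Set A).Countable := by
  have : Countable s := hs.to_subtype
  have h1 : (AddSubgroup.closure s : Set A) = range (Finsupp.linearCombination ℤ ((↑) : s → A)) := by
    have := Finsupp.range_linearCombination (R := ℤ) (v := ((↑) : s → A))
    rw [Subtype.range_coe] at this
    rw [← LinearMap.coe_range, this, ← Submodule.span_int_eq_addSubgroupClosure]
    rfl
  rw [h1]
  exact countable_range _

/-- The reduction to the pro-`p` case. -/
theorem exists_proP_subgroup (h : ¬ IsGδ ({1} : Set Z)) :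
    ∃ p : ℕ, p.Prime ∧ ∃ P : Subgroup Z, IsClosed (P : Set Z) ∧ ProP P p ∧
      ¬ IsGδ ({1} : Set P) := by
  have hunc : ¬ (univ : Set (XX Z)).Countable := by
    intro hc
    apply h
    have : ({1} : Set Z) = ⋂ χ ∈ (univ : Set (XX Z)), (ev χ) ⁻¹' {1} := by
      apply Subset.antisymm
      · rintro _ rfl
        exact mem_iInter₂.2 fun χ _ => ev_one χ
      · intro z hz
        by_contra hz1
        obtain ⟨χ, hχ⟩ := exists_ev_ne (z := z) hz1
        exact hχ (mem_iInter₂.1 hz χ (mem_univ _))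
    rw [this]
    exact IsGδ.biInter hc fun χ _ => (isClosed_singleton.isGδ).preimage (continuous_ev χ)
  obtain ⟨p, hp, E, hE, s, hs, hsE⟩ := hasBigQuotient hunc
  refine ⟨p, hp, annih E, isClosed_annih E, proP_annih hp hE, ?_⟩
  intro hG
  obtain ⟨O, hOo, hO1, hO⟩ := exists_open_of_isGdelta_subgroup hG
  choose F hF using fun n => exists_finite_chars (isClosed_annih E) (hOo n) (hO1 n)
  let S : Set (XX Z) := ⋃ n, (F n : Set (XX Z))
  have hS : S.Countable := countable_iUnion fun n => (F n).countable_toSet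
  have htop : E ⊔ AddSubgroup.closure S = ⊤ := by
    apply eq_top_of_separates
    intro z hz
    have hzE : z ∈ annih E := fun χ hχ => hz χ (AddSubgroup.mem_sup_left hχ)
    apply hO z hzE
    intro n
    apply hF n z hzE
    intro χ hχ
    exact hz χ (AddSubgroup.mem_sup_right (AddSubgroup.subset_closure (mem_iUnion.2 ⟨n, hχ⟩)))
  apply hs
  have hdec : ∀ x : XX Z, ∃ c ∈ AddSubgroup.closure S, x - c ∈ E := by
    intro x
    have hx : x ∈ E ⊔ AddSubgroup.closure S := by rw [htop]; exact AddSubgroup.mem_top x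
    obtain ⟨e, he, c, hc, rfl⟩ := AddSubgroup.mem_sup.1 hx
    exact ⟨c, hc, by simpa using he⟩
  choose c hc hcE using hdec
  have hmaps : MapsTo c s (AddSubgroup.closure S : Set (XX Z)) := fun x _ => hc x
  refine hmaps.countable_of_injOn ?_ (countable_addSubgroup_closure hS)
  intro x hx y hy hxy
  apply hsE x hx y hy
  have h1 : x - y = (x - c x) - (y - c y) := by rw [hxy]; abel
  rw [h1]
  exact E.sub_mem (hcE x) (hcE y)

/-- The compact abelian case. -/
theorem isGdelta_one_of_good {H : Subgroup Z} (hg : Good H) : IsGδ ({1} : Set Z) := by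
  by_contra h
  obtain ⟨p, hp, P, hPc, hPp, hPG⟩ := exists_proP_subgroup h
  have : CompactSpace P := isCompact_iff_compactSpace.1 hPc.isCompact
  exact hPG (isGdelta_one_of_proP hp hPp (hg.subgroupOf hPc))

end Dual

end

end Pool.Agent.MP_47df8f_gt
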