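import Pool.Agent.MP_47df8f_gt.Dual

/-!
From the centre to the whole group: compact nilpotent groups.
-/

set_option autoImplicit false
open Filter Topology Set
open scoped commutatorElement IsMulCommutative

namespace Pool.Agent.MP_47df8f_gt

section Nilpotent

variable {K : Type*} [Group K] [TopologicalSpace K] [IsTopologicalGroup K] [CompactSpace K]
  [T2Space K]

omit [Group K] [IsTopologicalGroup K] [T2Space K] in
/-- A closed condition along a compact space. -/
theorem isOpen_forall_mem {X : Type*} [TopologicalSpace X] {U : Set (X × K)} (hU : IsOpen U) :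
    IsOpen {x : X | ∀ y : K, (x, y) ∈ U} := by
  have h := isClosedMap_fst_of_compactSpace (X := X) (Y := K) _ hU.isClosed_compl
  have : {x : X | ∀ y : K, (x, y) ∈ U} = (Prod.fst '' Uᶜ)ᶜ := by
    ext x
    simp only [mem_ofPred_eq, mem_compl_iff, mem_image, Prod.exists, exists_and_right,
      exists_eq_right, not_exists, not_not]
  rw [this]
  exact h.isOpen_compl

/-- The centre of a compact group with an essential subgroup of countable tightness. -/
theorem isGdelta_one_center {H : Subgroup K}
    (hess : ∀ N : Subgroup K, N.Normal → IsClosed (N : Set K) → N ≠ ⊥ → ∃ h ∈ N, h ≠ 1 ∧ h ∈ H)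
    (htight : ∀ A : Set K, A ⊆ H → (1 : K) ∈ closure A →
      ∃ B ⊆ A, B.Countable ∧ (1 : K) ∈ closure B) :
    IsGδ ({1} : Set (Subgroup.center K)) := by
  have hc : IsClosed (Subgroup.center K : Set K) := by
    have : (Subgroup.center K : Set K) = ⋂ y : K, {x | y * x = x * y} := by
      ext x
      simp only [SetLike.mem_coe, Subgroup.mem_center_iff, mem_iInter, mem_ofPred_eq]
    rw [this]
    exact isClosed_iInter fun y => isClosed_eq (by fun_prop) (by fun_prop)
  have : CompactSpace (Subgroup.center K) := isCompact_iff_compactSpace.1 hc.isCompact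
  apply isGdelta_one_of_good (H := H.subgroupOf (Subgroup.center K))
  constructor
  · intro L hL hne
    have hcl : IsClosed ((L.map (Subgroup.center K).subtype : Subgroup K) : Set K) := by
      rw [Subgroup.coe_map]
      exact hc.isClosedEmbedding_subtypeVal.isClosedMap _ hL
    have hnorm : (L.map (Subgroup.center K).subtype).Normal := by
      constructor
      rintro _ ⟨l, hl, rfl⟩ g
      refine ⟨l, hl, ?_⟩
      have := Subgroup.mem_center_iff.1 l.2 g
      change (l : K) = g * l * g⁻¹
      rw [this, mul_inv_cancel_right]
    obtain ⟨h, hhL, h1, hH⟩ := hess _ hnorm hcl (by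
      intro hb
      apply hne
      rw [Subgroup.map_eq_bot_iff_of_injective _ (Subgroup.center K).subtype_injective] at hb
      exact hb)
    obtain ⟨l, hl, rfl⟩ := hhL
    refine ⟨l, hl, ?_, ?_⟩
    · rintro rfl; exact h1 (map_one _)
    · exact Subgroup.mem_subgroupOf.2 hH
  · intro A hA h1
    have h1' : (1 : K) ∈ closure ((↑) '' A : Set K) := by
      have := image_closure_subset_closure_image (f := ((↑) : Subgroup.center K → K))
        continuous_subtype_val (s := A)
      exact this ⟨1, h1, rfl⟩
    obtain ⟨B, hBA, hBc, hB1⟩ := htight ((↑) '' A : Set K) (by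
      rintro _ ⟨a, ha, rfl⟩
      exact Subgroup.mem_subgroupOf.1 (hA ha)) h1'
    obtain ⟨B', hB'A, rfl⟩ := subset_image_iff.1 hBA
    refine ⟨B', hB'A, ?_, ?_⟩
    · exact countable_of_injective_of_countable_image Subtype.val_injective.injOn hBc
    · rw [Topology.IsEmbedding.subtypeVal.closure_eq_preimage_closure_image]
      exact hB1

omit [T2Space K] in
/-- If the identity is `Gδ` in the centre of a compact nilpotent group, it is `Gδ`. -/
theorem isGdelta_one_of_center (hnil : ∃ n : ℕ, Subgroup.upperCentralSeries K n = ⊤)
    (h : IsGδ ({1} : Set (Subgroup.center K))) : IsGδ ({1} : Set K) := by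
  have key : ∀ i : ℕ, ∃ O : ℕ → Set K, (∀ n, IsOpen (O n)) ∧ (∀ n, (1 : K) ∈ O n) ∧
      ∀ x ∈ Subgroup.upperCentralSeries K (i + 1), (∀ n, x ∈ O n) → x = 1 := by
    intro i
    induction i with
    | zero =>
      obtain ⟨U, hUo, hU⟩ := h.eq_iInter_nat
      choose O hOo hO using fun n => isOpen_induced_iff.1 (hUo n)
      refine ⟨O, hOo, ?_, ?_⟩
      · intro n
        have : (1 : Subgroup.center K) ∈ ⋂ n, U n := by rw [← hU]; rfl
        have := mem_iInter.1 this n
        rw [← hO n] at this
        exact this
      · intro x hxN hx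
        rw [zero_add, Subgroup.upperCentralSeries_one] at hxN
        have : (⟨x, hxN⟩ : Subgroup.center K) ∈ ({1} : Set (Subgroup.center K)) := by
          rw [hU, mem_iInter]
          intro n
          rw [← hO n]
          exact hx n
        exact congrArg Subtype.val this
    | succ i ih =>
      obtain ⟨O, hOo, hO1, hO⟩ := ih
      refine ⟨fun n => O n ∩ {x : K | ∀ y : K, ⁅x, y⁆ ∈ O n}, ?_, ?_, ?_⟩
      · intro n
        apply (hOo n).inter
        have hc : Continuous fun p : K × K => ⁅p.1, p.2⁆ := by
          simp only [commutatorElement_def]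
          fun_prop
        exact isOpen_forall_mem ((hOo n).preimage hc)
      · intro n
        refine ⟨hO1 n, ?_⟩
        intro y
        rw [commutatorElement_one_left]
        exact hO1 n
      · intro x hx hxO
        have hcen : x ∈ Subgroup.center K := by
          rw [Subgroup.mem_center_iff]
          intro y
          have h1 : ⁅x, y⁆ = 1 := hO _ (Subgroup.mem_upperCentralSeries_succ_iff.1 hx y)
            (fun n => (hxO n).2 y)
          rw [commutatorElement_eq_one_iff_mul_comm] at h1
          exact h1.symm
        have hx' : x ∈ Subgroup.upperCentralSeries K (i + 1) := by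
          rw [← Subgroup.upperCentralSeries_one] at hcen
          exact Subgroup.upperCentralSeries_mono K (by omega : 1 ≤ i + 1) hcen
        exact hO x hx' (fun n => (hxO n).1)
  obtain ⟨n, hn⟩ := hnil
  obtain ⟨O, hOo, hO1, hO⟩ := key n
  have htop : Subgroup.upperCentralSeries K (n + 1) = ⊤ := by
    rw [eq_top_iff, ← hn]
    exact Subgroup.upperCentralSeries_mono K (Nat.le_succ n)
  have : ({1} : Set K) = ⋂ n, O n := by
    apply Subset.antisymm
    · rintro _ rfl
      exact mem_iInter.2 hO1
    · intro x hx
      exact hO x (by rw [htop]; exact Subgroup.mem_top x) (mem_iInter.1 hx)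
  rw [this]
  exact IsGδ.iInter fun n => (hOo n).isGδ

omit [CompactSpace K] in
/-- The terms of the upper central series of a Hausdorff group are closed. -/
theorem isClosed_upperCentralSeries (n : ℕ) : IsClosed (Subgroup.upperCentralSeries K n : Set K) := by
  induction n with
  | zero =>
    rw [Subgroup.upperCentralSeries_zero, Subgroup.coe_bot]
    exact isClosed_singleton
  | succ n ih =>
    have : (Subgroup.upperCentralSeries K (n + 1) : Set K) =
        ⋂ y : K, (fun x : K => ⁅x, y⁆) ⁻¹' (Subgroup.upperCentralSeries K n : Set K) := by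
      ext x
      simp only [SetLike.mem_coe, Subgroup.mem_upperCentralSeries_succ_iff, mem_iInter, mem_preimage]
    rw [this]
    refine isClosed_iInter fun y => ih.preimage ?_
    simp only [commutatorElement_def]
    fun_prop

omit [CompactSpace K] in
/-- A Hausdorff group with a dense nilpotent subgroup is nilpotent. -/
theorem nilpotent_of_dense {G : Type*} [Group G] (hG : Group.IsNilpotent G) (f : G →* K)
    (hf : DenseRange f) : ∃ n : ℕ, Subgroup.upperCentralSeries K n = ⊤ := by
  have key : ∀ n : ℕ, ∀ x ∈ Subgroup.upperCentralSeries G n, f x ∈ Subgroup.upperCentralSeries K n := by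
    intro n
    induction n with
    | zero =>
      intro x hx
      rw [Subgroup.upperCentralSeries_zero, Subgroup.mem_bot] at hx ⊢
      rw [hx, map_one]
    | succ n ih =>
      intro x hx
      rw [Subgroup.mem_upperCentralSeries_succ_iff] at hx ⊢
      intro y
      have hcl : IsClosed ((fun y : K => ⁅f x, y⁆) ⁻¹' (Subgroup.upperCentralSeries K n : Set K)) := by
        refine (isClosed_upperCentralSeries n).preimage ?_
        simp only [commutatorElement_def]
        fun_prop
      have hsub : range f ⊆ (fun y : K => ⁅f x, y⁆) ⁻¹' (Subgroup.upperCentralSeries K n : Set K) := by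
        rintro _ ⟨z, rfl⟩
        change ⁅f x, f z⁆ ∈ Subgroup.upperCentralSeries K n
        rw [← map_commutatorElement]
        exact ih _ (hx z)
      exact closure_minimal hsub hcl (hf y)
  obtain ⟨n, hn⟩ := hG.nilpotent'
  refine ⟨n, ?_⟩
  rw [eq_top_iff]
  intro y _
  have hsub : range f ⊆ (Subgroup.upperCentralSeries K n : Set K) := by
    rintro _ ⟨z, rfl⟩
    exact key n z (by rw [hn]; exact Subgroup.mem_top z)
  exact closure_minimal hsub (isClosed_upperCentralSeries n) (hf y)

end Nilpotent

end Pool.Agent.MP_47df8f_gt
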